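import Pool.Agent.Lib.MP_3f2ebd_al.Mc

set_option autoImplicit false

namespace Pool.Agent.Lib.MP_3f2ebd_al

open Subgroup
open scoped commutatorElement

variable {G : Type*} [Group G]

/-- The iterated double centralizer envelopes of a subgroup. -/
def env (J : Subgroup G) : ℕ → Subgroup G
  | 0 => ⊤
  | k + 1 => env J k ⊓ cmod (zm (env J k) ⊥ k)
      ((env J k ⊓ cmod (zm (env J k) ⊥ k) J : Subgroup G) : Set G)

lemma env_succ (J : Subgroup G) (k : ℕ) : env J (k + 1) = env J k ⊓ cmod (zm (env J k) ⊥ k)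
      ((env J k ⊓ cmod (zm (env J k) ⊥ k) J : Subgroup G) : Set G) := rfl

lemma le_env (J : Subgroup G) (k : ℕ) : J ≤ env J k := by
  induction k with
  | zero => exact le_top
  | succ k ih =>
    refine le_inf ih (le_cmod (ih.trans (self_nz_zm (nz_bot _) k)) ?_)
    rw [commutator_comm]
    exact comm_le_of_le_cmod inf_le_right

lemma nz_env {T J : Subgroup G} (h : T ≤ nz J) (k : ℕ) : T ≤ nz (env J k) := by
  induction k with
  | zero => exact le_normalizer_of_normal (H := ⊤)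
  | succ k ih =>
    have h1 := nz_zm ih (nz_bot T) k
    exact nz_inf ih (nz_cmod h1 (nz_inf ih (nz_cmod h1 h)))

lemma zm_le_env_succ (J : Subgroup G) (k : ℕ) : zm (env J k) ⊥ k ≤ env J (k + 1) :=
  le_inf (zm_le bot_le k) (le_cmod le_normalizer
    (comm_le_left_of_nz (inf_le_left.trans (self_nz_zm (nz_bot _) k))))

lemma zm_eq_of_detects {L L₁ J : Subgroup G} {k : ℕ} (h1 : J ≤ L₁) (h2 : L₁ ≤ L)
    (h3 : zm L ⊥ k ≤ L₁) (hd : Detects L J k) : ∀ j ≤ k, zm L₁ ⊥ j = zm L ⊥ j := by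
  intro j
  induction j with
  | zero => intro _; rfl
  | succ j ih =>
    intro hj
    refine le_antisymm ?_ ?_
    · refine hd j (by omega) _ ((zm_le bot_le _).trans h2) ?_
      rw [← ih (by omega)]
      exact (commutator_mono le_rfl h1).trans (comm_zm_succ L₁ ⊥ j)
    · have := zm_restrict (K := ⊥) (K' := ⊥) h2 (nz_bot L₁) inf_le_right (j + 1)
      exact le_trans (le_inf ((zm_mono bot_le (nz_bot L) hj).trans h3) le_rfl) this

lemma detects_env (J : Subgroup G) (k : ℕ) : Detects (env J k) J k := by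
  induction k with
  | zero => intro j hj; exact absurd hj (Nat.not_lt_zero j)
  | succ k ih =>
    have heq := zm_eq_of_detects (le_env J (k + 1)) inf_le_left (zm_le_env_succ J k) ih
    intro j hj W hW hWJ
    rw [heq j (by omega)] at hWJ
    rcases Nat.lt_succ_iff_lt_or_eq.mp hj with hj | rfl
    · rw [heq (j + 1) (by omega)]
      exact ih j hj W (hW.trans inf_le_left) hWJ
    · refine le_zm_succ (nz_bot _) hW ?_
      rw [heq j le_rfl, commutator_comm]
      have hWC : W ≤ env J j ⊓ cmod (zm (env J j) ⊥ j) J :=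
        le_inf (hW.trans inf_le_left)
          (le_cmod ((hW.trans inf_le_left).trans (self_nz_zm (nz_bot _) j)) hWJ)
      exact (commutator_mono le_rfl hWC).trans (comm_le_of_le_cmod inf_le_right)

lemma zm_env_succ (J : Subgroup G) (k : ℕ) : zm (env J (k + 1)) ⊥ k = zm (env J k) ⊥ k :=
  zm_eq_of_detects (le_env J (k + 1)) inf_le_left (zm_le_env_succ J k) (detects_env J k) k le_rfl

lemma env_congr {J J' : Subgroup G} (h : J ≤ J') (k : ℕ)
    (hc : ∀ j < k, cz (lcs J j) ≤ cz (lcs J' j)) : env J k = env J' k := by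
  induction k with
  | zero => rfl
  | succ k ih =>
    have ih' := ih fun j hj => hc j (by omega)
    have hJ' : J' ≤ env J k := ih' ▸ le_env J' k
    have : env J k ⊓ cmod (zm (env J k) ⊥ k) J = env J k ⊓ cmod (zm (env J k) ⊥ k) J' := by
      refine le_antisymm (le_inf inf_le_left ?_) (le_inf inf_le_left ?_)
      · refine le_cmod (inf_le_left.trans (self_nz_zm (nz_bot _) k)) ?_
        exact bryant h hJ' inf_le_left (detects_env J k) (hc k (by omega))
          (comm_le_of_le_cmod inf_le_right)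
      · refine le_cmod (inf_le_left.trans (self_nz_zm (nz_bot _) k)) ?_
        exact (commutator_mono le_rfl h).trans (comm_le_of_le_cmod inf_le_right)
    rw [env_succ, env_succ, this, ih']

lemma zm_le_zm_env (J : Subgroup G) (k : ℕ) : zm J ⊥ k ≤ zm (env J k) ⊥ k := by
  induction k with
  | zero => exact le_rfl
  | succ k ih =>
    refine detects_env J (k + 1) k (by omega) _ ((zm_le bot_le _).trans (le_env J _)) ?_
    rw [zm_env_succ]
    exact (comm_zm_succ J ⊥ k).trans ih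

lemma le_envelope {J J' : Subgroup G} (h : J ≤ J') {c : ℕ} (hJ' : lcs J' c = ⊥)
    (hc : ∀ j < c, cz (lcs J j) ≤ cz (lcs J' j)) : J' ≤ zm (env J c) ⊥ c := by
  rw [env_congr h c hc]
  exact (le_zm_of_nilp hJ').trans (zm_le_zm_env J' c)

/-- Nilpotent subgroups generated by elements of `E`. -/
def NE (E : Set G) (U : Subgroup G) : Prop := Nilp U ∧ U ≤ closure ((U : Set G) ∩ E)

lemma closure_inter_le (E : Set G) (U : Subgroup G) : closure ((U : Set G) ∩ E) ≤ U :=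
  (closure_le _).mpr Set.inter_subset_left

lemma isE_closure {E S : Set G} (h : S ⊆ E) :
    closure S ≤ closure (((closure S : Subgroup G) : Set G) ∩ E) :=
  Subgroup.closure_mono (Set.subset_inter subset_closure h)

section Baer

variable {E : Set G}

lemma nz_closure_inter (hEc : ∀ g : G, ∀ e ∈ E, g * e * g⁻¹ ∈ E) {T W : Subgroup G}
    (h : T ≤ nz W) : T ≤ nz (closure ((W : Set G) ∩ E)) :=
  nz_closure fun t ht s hs => ⟨conj_mem_of_nz (h ht) hs.1, hEc t s hs.2⟩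

lemma normalizer_growth (hEc : ∀ g : G, ∀ e ∈ E, g * e * g⁻¹ ∈ E) {W J : Subgroup G}
    (hW : NE E W) (hJ : J ≤ closure ((J : Set G) ∩ E)) (hJW : J ≤ W) (hne : ¬ W ≤ J) :
    ∃ w ∈ W, w ∈ E ∧ w ∉ J ∧ w ∈ nz J := by
  by_contra hcon
  push Not at hcon
  obtain ⟨⟨c, hc⟩, hWE⟩ := hW
  have key : ∀ i : ℕ, closure (((J ⊔ zm W ⊥ i : Subgroup G) : Set G) ∩ E) ≤ J := by
    intro i
    induction i with
    | zero =>
      rw [zm_zero, sup_bot_eq]
      exact closure_inter_le E J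
    | succ i ih =>
      have heq : closure (((J ⊔ zm W ⊥ i : Subgroup G) : Set G) ∩ E) = J :=
        le_antisymm ih (hJ.trans (Subgroup.closure_mono
          (Set.inter_subset_inter_left _ (fun x hx => mem_sup_left hx))))
      have hn := nz_closure_inter hEc (sup_zm_nz' hJW bot_le (nz_bot W) i)
      rw [heq] at hn
      refine (closure_le _).mpr fun w hw => ?_
      by_contra hwJ
      exact hcon w (sup_le hJW (zm_le bot_le _) hw.1) hw.2 hwJ (hn hw.1)
  refine hne (hWE.trans (le_trans (Subgroup.closure_mono ?_) (key c)))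
  exact Set.inter_subset_inter_left _ (fun x hx => mem_sup_right (le_zm_of_nilp hc hx))

lemma NE.sup (hEL : ∀ e ∈ E, BLE ⊤ e) {U : Subgroup G} (hU : NE E U) {e : G} (he : e ∈ E)
    (hn : e ∈ nz U) : NE E (zpowers e ⊔ U) := by
  obtain ⟨m, hm⟩ := hEL e he
  refine ⟨nilp_sup_of_engel hU.1 hn fun y _ => hm y (mem_top y), sup_le ?_ ?_⟩
  · exact (zpowers_le (G := G)).mpr (subset_closure ⟨mem_sup_left (mem_zpowers e), he⟩)
  · exact hU.2.trans (Subgroup.closure_mono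
      (Set.inter_subset_inter_left _ (fun x hx => mem_sup_right hx)))

lemma mem_of_maximal (hEL : ∀ e ∈ E, BLE ⊤ e) {U : Subgroup G} (hU : Maximal (NE E) U) {e : G}
    (he : e ∈ E) (hn : e ∈ nz U) : e ∈ U :=
  hU.2 (hU.1.sup hEL he hn) le_sup_right (mem_sup_left (mem_zpowers e))

lemma Mc.exists_maximal (hG : Mc G) (hEL : ∀ e ∈ E, BLE ⊤ e) {U : Subgroup G} (hU : NE E U) :
    ∃ V, U ≤ V ∧ Maximal (NE E) V := by
  refine zorn_le_nonempty₀ {U | NE E U} (fun c hc hch y hy => ?_) U hU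
  have hd : DirectedOn (· ≤ ·) c := hch.directedOn
  have hE : sSup c ≤ closure (((sSup c : Subgroup G) : Set G) ∩ E) :=
    sSup_le fun S hS => (hc hS).2.trans (Subgroup.closure_mono
      (Set.inter_subset_inter_left _ (fun x hx => le_sSup hS hx)))
  refine ⟨sSup c, ⟨?_, hE⟩, fun z hz => le_sSup hz⟩
  refine hG.nilp_of_sol (hG.sol_of_ln' fun F hF => ?_)
    (le_antisymm hE (closure_inter_le E _)) fun e he => ?_
  · obtain ⟨S, hS, hFS⟩ := exists_finset_le_of_directed ⟨y, hy⟩ hd F hF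
    exact (hc hS).1.mono ((closure_le _).mpr hFS)
  · obtain ⟨m, hm⟩ := hEL e he.2
    exact ⟨m, fun y _ => hm y (mem_top y)⟩

lemma NE.map_conj (hEc : ∀ g : G, ∀ e ∈ E, g * e * g⁻¹ ∈ E) {U : Subgroup G} (hU : NE E U)
    (g : G) : NE E (U.map (MulAut.conj g).toMonoidHom) := by
  refine ⟨hU.1.map_conj g, (map_mono hU.2).trans ?_⟩
  rw [MonoidHom.map_closure]
  refine Subgroup.closure_mono ?_
  rintro _ ⟨x, hx, rfl⟩
  exact ⟨mem_map_of_mem _ hx.1, hEc g x hx.2⟩

lemma maximal_map_conj (hEc : ∀ g : G, ∀ e ∈ E, g * e * g⁻¹ ∈ E) {U : Subgroup G}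
    (hU : Maximal (NE E) U) (g : G) : Maximal (NE E) (U.map (MulAut.conj g).toMonoidHom) := by
  refine ⟨hU.1.map_conj hEc g, fun V hV hle x hx => ?_⟩
  rw [mem_map_conj]
  refine hU.2 (hV.map_conj hEc g⁻¹) (fun y hy => ?_) ?_
  · rw [mem_map_conj]
    refine hle ?_
    rw [mem_map_conj]
    rwa [show g⁻¹ * (g⁻¹⁻¹ * y * g⁻¹) * g = y by group]
  · rw [mem_map_conj]
    rwa [show g⁻¹⁻¹ * (g⁻¹ * x * g) * g⁻¹ = x by group]

/-- Baer's argument. -/
lemma baer_step (hEc : ∀ g : G, ∀ e ∈ E, g * e * g⁻¹ ∈ E) (hEL : ∀ e ∈ E, BLE ⊤ e)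
    {U J : Subgroup G} (hU : Maximal (NE E) U) (hJ : J ≤ U) {u v : G} (hu : u ∈ U) (huE : u ∈ E)
    (hvE : v ∈ E) (hv : v ∉ U) (hun : u ∈ nz J) (hvn : v ∈ nz J) :
    ∃ V, Maximal (NE E) V ∧ V ≠ U ∧ J ≤ V ∧ u ∈ V := by
  by_contra hcon
  have hnorm : ∀ g ∈ nz J, ad u g ∈ U → g ∈ nz U := by
    intro g hg hg'
    have h1 : g⁻¹ * u * g ∈ U := by
      have : g⁻¹ * u * g = (ad u g * u⁻¹)⁻¹ := by simp only [ad]; group
      rw [this]
      exact inv_mem (mul_mem hg' (inv_mem hu))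
    have h2 : U.map (MulAut.conj g).toMonoidHom = U := by
      by_contra h
      exact hcon ⟨_, maximal_map_conj hEc hU g, h,
        fun x hx => mem_map_conj.mpr (hJ (conj_mem_of_nz' hg hx)), mem_map_conj.mpr h1⟩
    exact mem_normalizer_iff_map_conj_eq.mpr h2
  have hnJ : ∀ k : ℕ, (ad u)^[k] v ∈ nz J := by
    intro k
    induction k with
    | zero => exact hvn
    | succ k ih =>
      rw [Function.iterate_succ_apply']
      exact mul_mem (inv_mem ih) (mul_mem (mul_mem (inv_mem hun) ih) hun)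
  have hdown : ∀ k : ℕ, (ad u)^[k + 1] v ∈ U → (ad u)^[k] v ∈ U := by
    intro k hk
    rw [Function.iterate_succ_apply'] at hk
    have h1 := hnorm _ (hnJ k) hk
    rcases k with _ | k
    · exact mem_of_maximal hEL hU hvE h1
    · rw [Function.iterate_succ_apply'] at h1 ⊢
      set h := (ad u)^[k] v
      have h2 : h⁻¹ * u * h⁻¹⁻¹ = (ad u h * u⁻¹)⁻¹ := by simp only [ad]; group
      have h3 : h⁻¹ * u * h⁻¹⁻¹ ∈ U := by
        refine mem_of_maximal hEL hU (hEc _ u huE) ?_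
        rw [h2]
        exact inv_mem (mul_mem h1 (inv_mem (le_normalizer hu)))
      rw [h2, inv_mem_iff] at h3
      have := mul_mem h3 hu
      rwa [inv_mul_cancel_right] at this
  obtain ⟨m, hm⟩ := hEL u huE
  have key : ∀ k : ℕ, (ad u)^[k] v ∈ U → v ∈ U := by
    intro k
    induction k with
    | zero => exact id
    | succ k ih => exact fun h => ih (hdown k h)
  exact hv (key m (by rw [hm v (mem_top v)]; exact one_mem _))

lemma Mc.maximal_unique (hG : Mc G) (hEc : ∀ g : G, ∀ e ∈ E, g * e * g⁻¹ ∈ E)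
    (hEL : ∀ e ∈ E, BLE ⊤ e) {U V₀ : Subgroup G} (hU : Maximal (NE E) U)
    (hV₀ : Maximal (NE E) V₀) : V₀ = U := by
  by_contra hne
  obtain ⟨c, hc⟩ := hU.1.1
  let jj : Subgroup G → Subgroup G := fun V => closure (((U ⊓ V : Subgroup G) : Set G) ∩ E)
  have jjU : ∀ V, jj V ≤ U := fun V => (closure_inter_le E _).trans inf_le_left
  have jjV : ∀ V, jj V ≤ V := fun V => (closure_inter_le E _).trans inf_le_right
  have jjE : ∀ V, jj V ≤ closure ((jj V : Set G) ∩ E) := fun V => isE_closure Set.inter_subset_right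
  have memjj : ∀ V, ∀ x ∈ U, x ∈ V → x ∈ E → x ∈ jj V := fun V x h1 h2 h3 =>
    subset_closure ⟨⟨h1, h2⟩, h3⟩
  have lejj : ∀ V V', jj V ≤ V' → jj V ≤ jj V' := fun V V' h =>
    (closure_le _).mpr fun x hx => memjj V' x hx.1.1 (h (subset_closure hx)) hx.2
  have grow : ∀ V, Maximal (NE E) V → V ≠ U →
      (∃ w ∈ U, w ∈ E ∧ w ∉ V ∧ w ∈ nz (jj V)) ∧ (∃ w ∈ V, w ∈ E ∧ w ∉ U ∧ w ∈ nz (jj V)) := by
    intro V hV hVU
    constructor
    · obtain ⟨w, h1, h2, h3, h4⟩ := normalizer_growth hEc hU.1 (jjE V) (jjU V)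
        (fun h => hVU (le_antisymm (hU.2 hV.1 (h.trans (jjV V))) (h.trans (jjV V))))
      exact ⟨w, h1, h2, fun h => h3 (memjj V w h1 h h2), h4⟩
    · obtain ⟨w, h1, h2, h3, h4⟩ := normalizer_growth hEc hV.1 (jjE V) (jjV V)
        (fun h => hVU (le_antisymm (h.trans (jjU V)) (hV.2 hU.1 (h.trans (jjU V)))))
      exact ⟨w, h1, h2, fun h => h3 (memjj V w h h1 h2), h4⟩
  obtain ⟨_, ⟨V, ⟨hV, hVU⟩, rfl⟩, hmin⟩ := hG.exists_min
    (𝓙 := jj '' {V | Maximal (NE E) V ∧ V ≠ U}) ⟨_, V₀, ⟨hV₀, hne⟩, rfl⟩ c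
  set D := zm (env (jj V) c) ⊥ c with hD
  have hle : ∀ V', Maximal (NE E) V' → V' ≠ U → jj V ≤ jj V' → jj V' ≤ D := by
    intro V' h1 h2 h3
    refine le_envelope h3 (le_bot_iff.mp ((lcs_mono (jjU V') c).trans hc.le)) ?_
    exact hmin _ ⟨V', ⟨h1, h2⟩, rfl⟩ h3
  have hDn : nz (jj V) ≤ nz (closure ((D : Set G) ∩ E)) :=
    nz_closure_inter hEc (nz_zm (nz_env le_rfl c) (nz_bot _) c)
  have hDE : NE E (closure ((D : Set G) ∩ E)) :=
    ⟨Nilp.mono ⟨c, lcs_zm_bot _ c⟩ (closure_inter_le E D), isE_closure Set.inter_subset_right⟩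
  obtain ⟨v, -, hvE, hvU, hvn⟩ := (grow V hV hVU).2
  obtain ⟨V₁, hV₁le, hV₁⟩ := hG.exists_maximal hEL (hDE.sup hEL hvE (hDn hvn))
  have hV₁U : V₁ ≠ U := fun h => hvU (h ▸ hV₁le (mem_sup_left (mem_zpowers v)))
  have hDV₁ : ∀ x ∈ D, x ∈ E → x ∈ V₁ := fun x h1 h2 =>
    hV₁le (mem_sup_right (subset_closure ⟨h1, h2⟩))
  have h1 : jj V ≤ jj V₁ := by
    refine lejj V V₁ ((jjE V).trans ((closure_le _).mpr fun x hx => ?_))
    exact hDV₁ x (hle V hV hVU le_rfl hx.1) hx.2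
  obtain ⟨⟨u₁, hu₁U, hu₁E, hu₁V, hu₁n⟩, ⟨v₁, -, hv₁E, hv₁U, hv₁n⟩⟩ := grow V₁ hV₁ hV₁U
  obtain ⟨V₂, hV₂, hV₂U, hle₂, hu₂⟩ :=
    baer_step hEc hEL hU (jjU V₁) hu₁U hu₁E hv₁E hv₁U hu₁n hv₁n
  have h2 : jj V₂ ≤ D := hle V₂ hV₂ hV₂U (h1.trans (lejj V₁ V₂ hle₂))
  exact hu₁V (hDV₁ u₁ (h2 (memjj V₂ u₁ hu₁U hu₂ hu₁E)) hu₁E)

/-- In a group with the minimal condition on centralizers, a conjugation invariant set of bounded
left Engel elements generates a nilpotent subgroup. -/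
theorem Mc.nilp_closure (hG : Mc G) (hEc : ∀ g : G, ∀ e ∈ E, g * e * g⁻¹ ∈ E)
    (hEL : ∀ e ∈ E, BLE ⊤ e) : Nilp (closure E) := by
  have hbot : NE E (⊥ : Subgroup G) := ⟨⟨0, rfl⟩, bot_le⟩
  obtain ⟨U, -, hU⟩ := hG.exists_maximal hEL hbot
  refine hU.1.1.mono ((closure_le _).mpr fun e he => ?_)
  obtain ⟨V, hV, hVm⟩ := hG.exists_maximal hEL (hbot.sup hEL he (nz_bot ⊤ (mem_top e)))
  rw [← hG.maximal_unique hEc hEL hU hVm]
  exact hV (mem_sup_left (mem_zpowers e))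

end Baer

lemma iterate_ad_conj (g x y : G) (k : ℕ) :
    (ad (g * x * g⁻¹))^[k] (g * y * g⁻¹) = g * (ad x)^[k] y * g⁻¹ := by
  induction k with
  | zero => rfl
  | succ k ih =>
    rw [Function.iterate_succ_apply', Function.iterate_succ_apply', ih]
    simp only [ad]; group

lemma right_engel_conj {a : G} {m : ℕ} (h : ∀ x : G, (ad x)^[m] a = 1) (g x : G) :
    (ad x)^[m] (g * a * g⁻¹) = 1 := by
  have := iterate_ad_conj g (g⁻¹ * x * g) a m
  rw [h, show g * (g⁻¹ * x * g) * g⁻¹ = x by group] at this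
  rw [this]; group

/-- Heineken's observation. -/
lemma heineken {a : G} {m : ℕ} (h : ∀ x : G, (ad x)^[m] a = 1) (y : G) :
    (ad a⁻¹)^[m + 2] y = 1 := by
  have h1 : ad a⁻¹ (ad a⁻¹ y) = a * ad a⁻¹ (y⁻¹ * a * y⁻¹⁻¹) * a⁻¹ := by
    simp only [ad]; group
  have h2 := iterate_ad_conj a a⁻¹ (ad a⁻¹ (y⁻¹ * a * y⁻¹⁻¹)) m
  rw [show a * a⁻¹ * a⁻¹ = a⁻¹ by group] at h2
  rw [Function.iterate_succ_apply, Function.iterate_succ_apply, h1, h2,
    ← Function.iterate_succ_apply, Function.iterate_succ_apply', right_engel_conj h]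
  simp [ad]

theorem main (hG : Mc G) (a : G) {m : ℕ} (h : ∀ x : G, (ad x)^[m] a = 1) :
    ∃ n : ℕ, 1 ≤ n ∧ ∀ x : G, ∃ H : ℕ → Subgroup G,
      H 0 = zpowers x ∧ H n = zpowers x ⊔ normalClosure ({a} : Set G) ∧
      ∀ i : ℕ, i < n → (H i ≤ H (i + 1) ∧ ((H i).subgroupOf (H (i + 1))).Normal) := by
  set A : Set G := Group.conjugatesOfSet {a} with hA
  have hmem : ∀ x, x ∈ A ↔ ∃ g : G, g * a * g⁻¹ = x := by
    intro x
    rw [hA, Group.mem_conjugatesOfSet_iff]
    simp [isConj_iff]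
  have hN : normalClosure ({a} : Set G) = closure A := rfl
  have hnil : Nilp (closure A⁻¹) := by
    refine hG.nilp_closure (fun g e he => ?_) (fun e he => ?_)
    · rw [Set.mem_inv, hmem] at he ⊢
      obtain ⟨t, ht⟩ := he
      refine ⟨g * t, ?_⟩
      rw [show g * t * a * (g * t)⁻¹ = g * (t * a * t⁻¹) * g⁻¹ by group, ht]
      group
    · rw [Set.mem_inv, hmem] at he
      obtain ⟨t, ht⟩ := he
      refine ⟨m + 2, fun y _ => ?_⟩
      have := heineken (right_engel_conj h t) y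
      rwa [ht, inv_inv] at this
  rw [Subgroup.closure_inv] at hnil
  obtain ⟨c, hc⟩ := hnil
  refine ⟨c * (c * m) + 1, by omega, fun x => ?_⟩
  set L := zpowers x ⊔ normalClosure ({a} : Set G) with hL
  have hT : L ≤ zm L ⊥ (c * (c * m) + 1) := by
    refine lemmaT hN (le_normalizer_of_normal (mem_top x)) (fun b hb => ?_) hc
    obtain ⟨t, rfl⟩ := (hmem b).mp hb
    exact right_engel_conj h t x
  refine ⟨fun i => zpowers x ⊔ zm L ⊥ i, by simp, ?_, fun i _ => ?_⟩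
  · exact le_antisymm (sup_le le_sup_left (zm_le bot_le _)) (hT.trans le_sup_right)
  · have hle : zpowers x ⊔ zm L ⊥ i ≤ zpowers x ⊔ zm L ⊥ (i + 1) :=
      sup_le_sup_left (zm_le_succ bot_le (nz_bot L) i) _
    exact ⟨hle, (normal_subgroupOf_iff_le_normalizer hle).mpr
      (sup_zm_nz' le_sup_left bot_le (nz_bot L) i)⟩

end Pool.Agent.Lib.MP_3f2ebd_al
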