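import Mathlib

set_option autoImplicit false

namespace Pool.Agent.Lib.MP_3f2ebd_al

open Subgroup
open scoped commutatorElement

variable {G : Type*} [Group G]

/-- The normalizer of a subgroup. -/
abbrev nz (H : Subgroup G) : Subgroup G := normalizer (H : Set G)

/-- The lower central series, computed in the ambient group. -/
abbrev lcs (H : Subgroup G) (i : ℕ) : Subgroup G := H.lowerCentralSeries i

/-- The centralizer of a subgroup. -/
abbrev cz (H : Subgroup G) : Subgroup G := centralizer (H : Set G)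

lemma conj_mem_of_nz {H : Subgroup G} {g x : G} (hg : g ∈ nz H) (hx : x ∈ H) :
    g * x * g⁻¹ ∈ H := (mem_normalizer_iff.mp hg x).mp hx

lemma conj_mem_of_nz' {H : Subgroup G} {g x : G} (hg : g ∈ nz H) (hx : x ∈ H) :
    g⁻¹ * x * g ∈ H := by
  have := conj_mem_of_nz (inv_mem hg) hx
  rwa [inv_inv] at this

lemma comm_mem_comm {N : Subgroup G} {x y : G} (h : ⁅x, y⁆ ∈ N) : ⁅y, x⁆ ∈ N := by
  rw [← commutatorElement_inv]; exact inv_mem h

/-- The centralizer of `B` modulo `N`. -/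
def cmod (N : Subgroup G) (B : Set G) : Subgroup G where
  carrier := {x | x ∈ nz N ∧ ∀ b ∈ B, ⁅x, b⁆ ∈ N}
  one_mem' := ⟨one_mem _, fun b _ => by simp⟩
  mul_mem' := by
    rintro x y ⟨hx, hx'⟩ ⟨hy, hy'⟩
    refine ⟨mul_mem hx hy, fun b hb => ?_⟩
    have : ⁅x * y, b⁆ = x * ⁅y, b⁆ * x⁻¹ * ⁅x, b⁆ := by
      simp only [commutatorElement_def]; group
    rw [this]
    exact mul_mem (conj_mem_of_nz hx (hy' b hb)) (hx' b hb)
  inv_mem' := by
    rintro x ⟨hx, hx'⟩
    refine ⟨inv_mem hx, fun b hb => ?_⟩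
    have : ⁅x⁻¹, b⁆ = x⁻¹ * ⁅x, b⁆⁻¹ * x := by
      simp only [commutatorElement_def]; group
    rw [this]
    exact conj_mem_of_nz' hx (inv_mem (hx' b hb))

lemma mem_cmod {N : Subgroup G} {B : Set G} {x : G} :
    x ∈ cmod N B ↔ x ∈ nz N ∧ ∀ b ∈ B, ⁅x, b⁆ ∈ N := Iff.rfl

lemma le_cmod {N W B : Subgroup G} (h1 : W ≤ nz N) (h2 : ⁅W, B⁆ ≤ N) : W ≤ cmod N B :=
  fun _ hx => ⟨h1 hx, fun _ hb => h2 (commutator_mem_commutator hx hb)⟩

lemma comm_le_of_le_cmod {N W B : Subgroup G} (h : W ≤ cmod N B) : ⁅W, B⁆ ≤ N :=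
  commutator_le.mpr fun _ hx b hb => (h hx).2 b hb

lemma nz_nz {T N : Subgroup G} (h : T ≤ nz N) : T ≤ nz (nz N) :=
  h.trans le_normalizer

lemma nz_cmod {T N B : Subgroup G} (h1 : T ≤ nz N) (h2 : T ≤ nz B) : T ≤ nz (cmod N B) := by
  refine le_normalizer_iff.mpr fun t ht x hx => ⟨conj_mem_of_nz (nz_nz h1 ht) hx.1, fun b hb => ?_⟩
  have : ⁅t * x * t⁻¹, b⁆ = t * ⁅x, t⁻¹ * b * t⁆ * t⁻¹ := by
    simp only [commutatorElement_def]; group
  rw [this]
  exact conj_mem_of_nz (h1 ht) (hx.2 _ (conj_mem_of_nz' (h2 ht) hb))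

lemma nz_inf {T A B : Subgroup G} (h1 : T ≤ nz A) (h2 : T ≤ nz B) : T ≤ nz (A ⊓ B) :=
  le_normalizer_iff.mpr fun _ ht _ hx =>
    ⟨conj_mem_of_nz (h1 ht) hx.1, conj_mem_of_nz (h2 ht) hx.2⟩

lemma nz_closure {T : Subgroup G} {S : Set G} (h : ∀ t ∈ T, ∀ s ∈ S, t * s * t⁻¹ ∈ S) :
    T ≤ nz (closure S) :=
  le_normalizer_closure_iff.mpr fun t ht s hs => subset_closure (h t ht s hs)

lemma nz_sup {T A B : Subgroup G} (h1 : T ≤ nz A) (h2 : T ≤ nz B) : T ≤ nz (A ⊔ B) := by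
  rw [sup_eq_closure]
  refine nz_closure fun t ht s hs => ?_
  rcases hs with hs | hs
  · exact Or.inl (conj_mem_of_nz (h1 ht) hs)
  · exact Or.inr (conj_mem_of_nz (h2 ht) hs)

lemma nz_comm {T A B : Subgroup G} (h1 : T ≤ nz A) (h2 : T ≤ nz B) : T ≤ nz ⁅A, B⁆ := by
  rw [Subgroup.commutator_def]
  refine nz_closure ?_
  rintro t ht _ ⟨a, ha, b, hb, rfl⟩
  exact ⟨_, conj_mem_of_nz (h1 ht) ha, _, conj_mem_of_nz (h2 ht) hb,
    (conjugate_commutatorElement a b t).symm⟩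

lemma nz_bot (T : Subgroup G) : T ≤ nz ⊥ := le_normalizer_of_normal

lemma nz_lcs {T A : Subgroup G} (h : T ≤ nz A) (i : ℕ) : T ≤ nz (lcs A i) := by
  induction i with
  | zero => exact h
  | succ i ih => exact nz_comm ih h

lemma comm_le_left_of_nz {A B : Subgroup G} (h : B ≤ nz A) : ⁅A, B⁆ ≤ A :=
  le_normalizer_iff_commutator_le_left.mp h

lemma nz_of_comm_le {A B : Subgroup G} (h : ⁅A, B⁆ ≤ A) : B ≤ nz A :=
  le_normalizer_iff_commutator_le_left.mpr h

lemma comm_sup_le {N A A' B : Subgroup G} (h1 : A ≤ nz N) (h2 : A' ≤ nz N) (h3 : ⁅A, B⁆ ≤ N)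
    (h4 : ⁅A', B⁆ ≤ N) : ⁅A ⊔ A', B⁆ ≤ N :=
  comm_le_of_le_cmod (sup_le (le_cmod h1 h3) (le_cmod h2 h4))

/-- The three subgroups lemma modulo a normalized subgroup. -/
lemma three {N A B C : Subgroup G} (hA : A ≤ nz N) (hB : B ≤ nz N) (hC : C ≤ nz N)
    (h1 : ⁅⁅B, C⁆, A⁆ ≤ N) (h2 : ⁅⁅C, A⁆, B⁆ ≤ N) : ⁅⁅A, B⁆, C⁆ ≤ N := by
  refine comm_le_of_le_cmod (commutator_le.mpr fun x hx y hy => ⟨?_, fun z hz => ?_⟩)
  · rw [commutatorElement_def]
    exact mul_mem (mul_mem (mul_mem (hA hx) (hB hy)) (inv_mem (hA hx))) (inv_mem (hB hy))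
  · refine comm_mem_comm ?_
    have : ⁅z, ⁅x, y⁆⁆ = (x * z) * ⁅⁅z⁻¹, x⁻¹⁆, y⁆ * (x * z)⁻¹ *
        ((x * y) * ⁅⁅y⁻¹, z⁆, x⁻¹⁆ * (x * y)⁻¹) := by
      simp only [commutatorElement_def]; group
    rw [this]
    refine mul_mem (conj_mem_of_nz (mul_mem (hA hx) (hC hz)) ?_)
      (conj_mem_of_nz (mul_mem (hA hx) (hB hy)) ?_)
    · exact h2 (commutator_mem_commutator
        (commutator_mem_commutator (inv_mem hz) (inv_mem hx)) hy)
    · exact h1 (commutator_mem_commutator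
        (commutator_mem_commutator (inv_mem hy) hz) (inv_mem hx))

/-- The upper central series of `L` modulo `K`. -/
def zm (L K : Subgroup G) : ℕ → Subgroup G
  | 0 => K
  | j + 1 => L ⊓ cmod (zm L K j) L

@[simp] lemma zm_zero (L K : Subgroup G) : zm L K 0 = K := rfl

lemma zm_succ (L K : Subgroup G) (j : ℕ) : zm L K (j + 1) = L ⊓ cmod (zm L K j) L := rfl

lemma zm_le {L K : Subgroup G} (h : K ≤ L) (j : ℕ) : zm L K j ≤ L := by
  cases j with
  | zero => exact h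
  | succ j => exact inf_le_left

lemma nz_zm {T L K : Subgroup G} (h1 : T ≤ nz L) (h2 : T ≤ nz K) (j : ℕ) : T ≤ nz (zm L K j) := by
  induction j with
  | zero => exact h2
  | succ j ih => exact nz_inf h1 (nz_cmod ih h1)

lemma self_nz_zm {L K : Subgroup G} (h : L ≤ nz K) (j : ℕ) : L ≤ nz (zm L K j) :=
  nz_zm le_normalizer h j

lemma le_zm_succ {L K W : Subgroup G} (h : L ≤ nz K) {j : ℕ} (h1 : W ≤ L)
    (h2 : ⁅W, L⁆ ≤ zm L K j) : W ≤ zm L K (j + 1) :=
  le_inf h1 (le_cmod (h1.trans (self_nz_zm h j)) h2)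

lemma mem_zm_succ {L K : Subgroup G} (h : L ≤ nz K) {j : ℕ} {x : G} (h1 : x ∈ L)
    (h2 : ∀ y ∈ L, ⁅x, y⁆ ∈ zm L K j) : x ∈ zm L K (j + 1) :=
  ⟨h1, self_nz_zm h j h1, h2⟩

lemma comm_zm_succ (L K : Subgroup G) (j : ℕ) : ⁅zm L K (j + 1), L⁆ ≤ zm L K j :=
  comm_le_of_le_cmod inf_le_right

lemma zm_le_succ {L K : Subgroup G} (h0 : K ≤ L) (h : L ≤ nz K) (j : ℕ) :
    zm L K j ≤ zm L K (j + 1) :=
  le_zm_succ h (zm_le h0 j) (comm_le_left_of_nz (self_nz_zm h j))

lemma zm_mono {L K : Subgroup G} (h0 : K ≤ L) (h : L ≤ nz K) {i j : ℕ} (hij : i ≤ j) :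
    zm L K i ≤ zm L K j :=
  monotone_nat_of_le_succ (zm_le_succ h0 h) hij

lemma zm_trans {L K K' : Subgroup G} (h' : L ≤ nz K') {r : ℕ} (hK : K ≤ zm L K' r) (j : ℕ) :
    zm L K j ≤ zm L K' (r + j) := by
  induction j with
  | zero => exact hK
  | succ j ih => exact le_zm_succ h' inf_le_left ((comm_zm_succ L K j).trans ih)

lemma zm_restrict {L K P K' : Subgroup G} (hP : P ≤ L) (h' : P ≤ nz K') (hK : P ⊓ K ≤ K') (j : ℕ) :
    P ⊓ zm L K j ≤ zm P K' j := by
  induction j with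
  | zero => exact hK
  | succ j ih =>
    refine le_zm_succ h' inf_le_left (le_trans (le_inf ?_ ?_) ih)
    · exact (commutator_mono inf_le_left le_rfl).trans (commutator_le_self P)
    · exact (commutator_mono inf_le_right hP).trans (comm_zm_succ L K j)

lemma lcs_le (L : Subgroup G) (i : ℕ) : lcs L i ≤ L := lowerCentralSeries_le_self L i

lemma lcs_mono {A B : Subgroup G} (h : A ≤ B) (i : ℕ) : lcs A i ≤ lcs B i := by
  induction i with
  | zero => exact h
  | succ i ih => exact commutator_mono ih h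

lemma lcs_anti (L : Subgroup G) {i j : ℕ} (h : i ≤ j) : lcs L j ≤ lcs L i :=
  Subgroup.lowerCentralSeries_antitone L h

lemma comm_zm_lcs {L K : Subgroup G} (h0 : K ≤ L) (h : L ≤ nz K) (i : ℕ) :
    ∀ j : ℕ, ⁅zm L K (j + i + 1), lcs L i⁆ ≤ zm L K j := by
  induction i with
  | zero => intro j; exact comm_zm_succ L K j
  | succ i ih =>
    intro j
    rw [commutator_comm]
    have hn := self_nz_zm h j
    refine three ((lcs_le L i).trans hn) hn ((zm_le h0 _).trans hn) ?_ ?_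
    · rw [commutator_comm L]
      exact (commutator_mono (comm_zm_succ L K _) le_rfl).trans (ih j)
    · have := ih (j + 1)
      rw [show j + 1 + i + 1 = j + (i + 1) + 1 by ring] at this
      exact (commutator_mono this le_rfl).trans (comm_zm_succ L K j)

lemma lcs_le_zm {L K : Subgroup G} (h : L ≤ nz K) (j : ℕ) :
    ∀ i : ℕ, lcs L (i + j) ≤ K → lcs L i ≤ zm L K j := by
  induction j with
  | zero => intro i hi; exact hi
  | succ j ih =>
    intro i hi
    refine le_zm_succ h (lcs_le L i) (ih (i + 1) ?_)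
    rwa [show i + 1 + j = i + (j + 1) by ring]

lemma le_zm_of_lcs {L K : Subgroup G} (h : L ≤ nz K) {c : ℕ} (hc : lcs L c ≤ K) : L ≤ zm L K c :=
  lcs_le_zm h c 0 (by rwa [zero_add])

lemma lcs_le_of_le_zm {L K : Subgroup G} (j : ℕ) :
    ∀ i : ℕ, L ≤ zm L K (i + j) → lcs L j ≤ zm L K i := by
  induction j with
  | zero => intro i hi; exact hi
  | succ j ih =>
    intro i hi
    have := ih (i + 1) (by rwa [show i + 1 + j = i + (j + 1) by ring])
    exact (commutator_mono this le_rfl).trans (comm_zm_succ L K i)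

/-- Nilpotency of a subgroup. -/
def Nilp (L : Subgroup G) : Prop := ∃ c : ℕ, lcs L c = ⊥

lemma nilp_of_le_zm {L : Subgroup G} {c : ℕ} (h : L ≤ zm L ⊥ c) : lcs L c = ⊥ :=
  le_bot_iff.mp (lcs_le_of_le_zm c 0 (by rwa [zero_add]))

lemma le_zm_of_nilp {L : Subgroup G} {c : ℕ} (h : lcs L c = ⊥) : L ≤ zm L ⊥ c :=
  le_zm_of_lcs (nz_bot L) h.le

lemma Nilp.mono {A B : Subgroup G} (hB : Nilp B) (h : A ≤ B) : Nilp A := by
  obtain ⟨c, hc⟩ := hB
  exact ⟨c, le_bot_iff.mp ((lcs_mono h c).trans hc.le)⟩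

lemma lcs_zm_bot (L : Subgroup G) (c : ℕ) : lcs (zm L ⊥ c) c = ⊥ := by
  refine nilp_of_le_zm ?_
  have := zm_restrict (L := L) (K := ⊥) (P := zm L ⊥ c) (K' := ⊥) (zm_le bot_le c) (nz_bot _)
    inf_le_right c
  rwa [inf_idem] at this

lemma comm_lcs_one (N : Subgroup G) (i : ℕ) : ⁅lcs N i, lcs N 1⁆ ≤ lcs N (i + 2) := by
  rw [commutator_comm]
  have hn : N ≤ nz (lcs N (i + 2)) := nz_lcs le_normalizer _
  refine three hn hn ((lcs_le N i).trans hn) ?_ ?_
  · rw [commutator_comm N]; exact le_rfl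
  · exact le_rfl

/-- Commutators of relative upper central series. -/
lemma comm_zm_zm {L A A₀ B B₀ K : Subgroup G} (hA : A ≤ L) (hB : B ≤ L) (hK : K ≤ L)
    (nA : L ≤ nz A) (nB : L ≤ nz B) (nK : L ≤ nz K)
    (h1 : ⁅A₀, B⁆ ≤ K) (h2 : ⁅A, B₀⁆ ≤ K) (l : ℕ) :
    ∀ j k : ℕ, j + k ≤ l + 1 → ⁅A ⊓ zm L A₀ j, B ⊓ zm L B₀ k⁆ ≤ zm L K l := by
  have base : ∀ l j k : ℕ, j = 0 ∨ k = 0 → ⁅A ⊓ zm L A₀ j, B ⊓ zm L B₀ k⁆ ≤ zm L K l := by
    intro l j k h
    refine le_trans ?_ (zm_mono hK nK (Nat.zero_le l))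
    rcases h with rfl | rfl
    · exact (commutator_mono inf_le_right inf_le_left).trans h1
    · exact (commutator_mono inf_le_left inf_le_right).trans h2
  have stepA : ∀ j : ℕ, ⁅A ⊓ zm L A₀ (j + 1), L⁆ ≤ A ⊓ zm L A₀ j := fun j =>
    le_inf ((commutator_mono inf_le_left le_rfl).trans (comm_le_left_of_nz nA))
      ((commutator_mono inf_le_right le_rfl).trans (comm_zm_succ L A₀ j))
  have stepB : ∀ j : ℕ, ⁅B ⊓ zm L B₀ (j + 1), L⁆ ≤ B ⊓ zm L B₀ j := fun j =>
    le_inf ((commutator_mono inf_le_left le_rfl).trans (comm_le_left_of_nz nB))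
      ((commutator_mono inf_le_right le_rfl).trans (comm_zm_succ L B₀ j))
  induction l with
  | zero =>
    intro j k hjk
    exact base 0 j k (by omega)
  | succ l ih =>
    intro j k hjk
    rcases j with _ | j
    · exact base _ _ _ (Or.inl rfl)
    rcases k with _ | k
    · exact base _ _ _ (Or.inr rfl)
    have hn := self_nz_zm nK l
    refine le_zm_succ nK ?_ ?_
    · exact (commutator_mono (inf_le_left.trans hA) (inf_le_left.trans hB)).trans
        (commutator_le_self L)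
    · refine three ((inf_le_left.trans hA).trans hn) ((inf_le_left.trans hB).trans hn) hn ?_ ?_
      · rw [commutator_comm]
        exact (commutator_mono le_rfl (stepB k)).trans (ih (j + 1) k (by omega))
      · rw [commutator_comm L]
        exact (commutator_mono (stepA j) le_rfl).trans (ih j (k + 1) (by omega))

/-- A form of P. Hall's nilpotency criterion, first step. -/
lemma hall_step {L N : Subgroup G} (hN : N ≤ L) (nN : L ≤ nz N) {m : ℕ}
    (h : N ≤ zm L (lcs N 1) m) (i : ℕ) : lcs N i ≤ zm L (lcs N (i + 1)) ((i + 1) * m) := by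
  induction i with
  | zero => simpa using h
  | succ i ih =>
    have := comm_zm_zm (L := L) (A := lcs N i) (A₀ := lcs N (i + 1)) (B := N) (B₀ := lcs N 1)
      (K := lcs N (i + 2)) ((lcs_le N i).trans hN) hN ((lcs_le N _).trans hN) (nz_lcs nN i) nN
      (nz_lcs nN _) le_rfl (comm_lcs_one N i) ((i + 1 + 1) * m) ((i + 1) * m) m (by nlinarith)
    rw [inf_eq_left.mpr ih, inf_eq_left.mpr h] at this
    exact this

/-- A form of P. Hall's nilpotency criterion. -/
lemma hall {L N : Subgroup G} (hN : N ≤ L) (nN : L ≤ nz N) {m c : ℕ}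
    (h : N ≤ zm L (lcs N 1) m) (hc : lcs N c = ⊥) : N ≤ zm L ⊥ (c * (c * m)) := by
  have key : ∀ j i : ℕ, i + j = c → lcs N i ≤ zm L ⊥ (j * (c * m)) := by
    intro j
    induction j with
    | zero =>
      intro i hi
      rw [add_zero] at hi
      rw [hi, hc]
      exact bot_le
    | succ j ih =>
      intro i hi
      have h1 := ih (i + 1) (by omega)
      have h2 := (hall_step hN nN h i).trans (zm_trans (nz_bot L) h1 _)
      refine h2.trans (zm_mono bot_le (nz_bot L) ?_)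
      have : (i + 1) * m ≤ c * m := Nat.mul_le_mul_right m (by omega)
      nlinarith
  exact key c 0 (zero_add c)

/-- The classical commutator `[y, x] = y⁻¹ * y ^ x`, as a function of `y`. -/
def ad (x y : G) : G := y⁻¹ * (x⁻¹ * y * x)

lemma ad_mem {N : Subgroup G} {x y : G} (hx : x ∈ nz N) (hy : y ∈ N) : ad x y ∈ N :=
  mul_mem (inv_mem hy) (conj_mem_of_nz' hx hy)

lemma zpowers_le_nz {N : Subgroup G} {x : G} (hx : x ∈ nz N) : zpowers x ≤ nz N :=
  (zpowers_le (G := G)).mpr hx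

lemma mem_zm_of_iterate {N K : Subgroup G} {x : G} (hx : x ∈ nz N) (hxK : x ∈ nz K)
    (hNK : N ≤ nz K) (hK : K ≤ N) (hNN : ⁅N, N⁆ ≤ K) (j : ℕ) :
    ∀ y ∈ N, (ad x)^[j] y ∈ K → y ∈ zm (zpowers x ⊔ N) K j := by
  have nK : zpowers x ⊔ N ≤ nz K := sup_le (zpowers_le_nz hxK) hNK
  have hKL : K ≤ zpowers x ⊔ N := hK.trans le_sup_right
  induction j with
  | zero => intro y _ hy; exact hy
  | succ j ih =>
    intro y hy hy'
    rw [Function.iterate_succ_apply] at hy'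
    have h1 := ih _ (ad_mem hx hy) hy'
    have hn := self_nz_zm nK j
    refine mem_zm_succ nK (mem_sup_right hy) fun l hl => comm_mem_comm ?_
    have hle : zpowers x ⊔ N ≤ cmod (zm (zpowers x ⊔ N) K j) {y} := by
      refine sup_le ((zpowers_le (G := G)).mpr ⟨hn (mem_sup_left (mem_zpowers x)), ?_⟩) ?_
      · rintro b rfl
        have : ⁅x, b⁆ = (x * b) * (ad x b)⁻¹ * (x * b)⁻¹ := by
          simp only [commutatorElement_def, ad]; group
        rw [this]
        exact conj_mem_of_nz (hn (mul_mem (mem_sup_left (mem_zpowers x)) (mem_sup_right hy)))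
          (inv_mem h1)
      · intro n hn'
        refine ⟨hn (mem_sup_right hn'), ?_⟩
        rintro b rfl
        exact zm_mono hKL nK (Nat.zero_le j) (hNN (commutator_mem_commutator hn' hy))
    exact (hle hl).2 y rfl

lemma comm_zpowers_sup_le {N : Subgroup G} {x : G} (hx : x ∈ nz N) :
    ⁅zpowers x ⊔ N, zpowers x ⊔ N⁆ ≤ N := by
  have nN : zpowers x ⊔ N ≤ nz N := sup_le (zpowers_le_nz hx) le_normalizer
  refine comm_sup_le (zpowers_le_nz hx) le_normalizer ?_ (comm_le_left_of_nz nN)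
  rw [commutator_comm]
  refine comm_sup_le (zpowers_le_nz hx) le_normalizer ?_ (comm_le_left_of_nz (zpowers_le_nz hx))
  rw [(Subgroup.commutator_self_eq_bot_iff (H := zpowers x)).mpr inferInstance]
  exact bot_le

lemma sup_le_zm_succ {N K : Subgroup G} {x : G} (hx : x ∈ nz N) (nK : zpowers x ⊔ N ≤ nz K) {M : ℕ}
    (h : N ≤ zm (zpowers x ⊔ N) K M) : zpowers x ⊔ N ≤ zm (zpowers x ⊔ N) K (M + 1) :=
  le_zm_succ nK le_rfl ((comm_zpowers_sup_le hx).trans h)

/-- A nilpotent group generated by elements on which a normalizing element `x` acts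
unipotently gives, together with `x`, a nilpotent group of bounded class. -/
lemma lemmaT {N : Subgroup G} {A : Set G} {x : G} {m c : ℕ} (hA : N = closure A) (hx : x ∈ nz N)
    (hm : ∀ a ∈ A, (ad x)^[m] a = 1) (hc : lcs N c = ⊥) :
    zpowers x ⊔ N ≤ zm (zpowers x ⊔ N) ⊥ (c * (c * m) + 1) := by
  have nN : zpowers x ⊔ N ≤ nz N := sup_le (zpowers_le_nz hx) le_normalizer
  refine sup_le_zm_succ hx (nz_bot _) (hall le_sup_right nN ?_ hc)
  have key : closure A ≤ zm (zpowers x ⊔ N) (lcs N 1) m := by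
    refine (closure_le _).mpr fun a ha => ?_
    refine mem_zm_of_iterate hx (nz_lcs le_rfl 1 hx) (nz_lcs le_normalizer 1) (lcs_le N 1) le_rfl
      m a (hA ▸ subset_closure ha) ?_
    rw [hm a ha]; exact one_mem _
  exact hA.le.trans key

lemma nilp_sup_of_engel {N : Subgroup G} {x : G} {m : ℕ} (hN : Nilp N) (hx : x ∈ nz N)
    (hm : ∀ a ∈ N, (ad x)^[m] a = 1) : Nilp (zpowers x ⊔ N) := by
  obtain ⟨c, hc⟩ := hN
  exact ⟨_, nilp_of_le_zm (lemmaT (closure_eq N).symm hx hm hc)⟩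

/-- Subnormal chains. -/
lemma sup_zm_nz {L K T : Subgroup G} (hT : T ≤ L) (j : ℕ) :
    T ⊔ zm L K (j + 1) ≤ nz (T ⊔ zm L K j) ∨ ¬ (K ≤ L ∧ L ≤ nz K) := by
  by_cases h : K ≤ L ∧ L ≤ nz K
  · left
    obtain ⟨h0, h⟩ := h
    refine sup_le (nz_sup le_normalizer (hT.trans (self_nz_zm h j))) ?_
    rw [sup_eq_closure]
    refine le_normalizer_closure_iff.mpr fun z hz g hg => ?_
    have hgL : g ∈ L := by
      rcases hg with hg | hg
      · exact hT hg
      · exact zm_le h0 j hg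
    have : z * g * z⁻¹ = ⁅z, g⁆ * g := by simp only [commutatorElement_def]; group
    rw [this]
    exact mul_mem (subset_closure (Or.inr (comm_zm_succ L K j (commutator_mem_commutator hz hgL))))
      (subset_closure hg)
  · exact Or.inr h

lemma sup_zm_nz' {L K T : Subgroup G} (hT : T ≤ L) (h0 : K ≤ L) (h : L ≤ nz K) (j : ℕ) :
    T ⊔ zm L K (j + 1) ≤ nz (T ⊔ zm L K j) :=
  (sup_zm_nz hT j).resolve_right (not_not.mpr ⟨h0, h⟩)

end Pool.Agent.Lib.MP_3f2ebd_al
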