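import Pool.Agent.Lib.MP_3f2ebd_al.Basic

set_option autoImplicit false

namespace Pool.Agent.Lib.MP_3f2ebd_al

open Subgroup
open scoped commutatorElement

variable {G : Type*} [Group G]

/-- The minimal condition on centralizers. -/
def Mc (G : Type*) [Group G] : Prop :=
  ∀ X : Set G, ∃ X₀ : Finset G, (↑X₀ : Set G) ⊆ X ∧ centralizer X = centralizer (↑X₀ : Set G)

lemma cz_anti {A B : Subgroup G} (h : A ≤ B) : cz B ≤ cz A := centralizer_le h

lemma exists_finset_le_of_directed {𝓢 : Set (Subgroup G)} (hne : 𝓢.Nonempty)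
    (hd : DirectedOn (· ≤ ·) 𝓢) (F : Finset G) (hF : (F : Set G) ⊆ (sSup 𝓢 : Subgroup G)) :
    ∃ S ∈ 𝓢, (F : Set G) ⊆ S := by
  classical
  induction F using Finset.induction_on with
  | empty =>
    obtain ⟨S, hS⟩ := hne
    exact ⟨S, hS, by simp⟩
  | insert a F _ ih =>
    rw [Finset.coe_insert, Set.insert_subset_iff] at hF
    obtain ⟨S, hS, hFS⟩ := ih hF.2
    obtain ⟨S', hS', haS⟩ := (mem_sSup_of_directedOn hne hd).mp hF.1
    obtain ⟨S'', hS'', h1, h2⟩ := hd S hS S' hS'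
    refine ⟨S'', hS'', ?_⟩
    rw [Finset.coe_insert, Set.insert_subset_iff]
    exact ⟨h2 haS, hFS.trans h1⟩

lemma Mc.exists_cz_eq (hG : Mc G) {𝓢 : Set (Subgroup G)} (hne : 𝓢.Nonempty)
    (hd : DirectedOn (· ≤ ·) 𝓢) : ∃ S ∈ 𝓢, cz S ≤ cz (sSup 𝓢) := by
  obtain ⟨F, hF, hc⟩ := hG (sSup 𝓢 : Subgroup G)
  obtain ⟨S, hS, hFS⟩ := exists_finset_le_of_directed hne hd F hF
  exact ⟨S, hS, (centralizer_le hFS).trans hc.ge⟩

lemma Mc.wf (hG : Mc G) : WellFounded (fun A B : Subgroup G => cz A < cz B) := by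
  rw [wellFounded_iff_isEmpty_descending_chain]
  refine ⟨fun ⟨f, hf⟩ => ?_⟩
  have hmono : Monotone (fun n => cz (cz (f n))) :=
    monotone_nat_of_le_succ fun n => cz_anti (hf n).le
  obtain ⟨S, ⟨n, rfl⟩, hS⟩ := hG.exists_cz_eq (𝓢 := Set.range (fun n => cz (cz (f n))))
    (Set.range_nonempty _) hmono.directed_le.directedOn_range
  have h1 : cz (f n) ≤ cz (cz (cz (f n))) := le_centralizer_iff.mp le_rfl
  have h2 : cz (sSup (Set.range (fun n => cz (cz (f n))))) ≤ cz (f (n + 1)) := by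
    refine cz_anti (le_trans ?_ (le_sSup ⟨n + 1, rfl⟩))
    exact le_centralizer_iff.mp le_rfl
  exact absurd (h1.trans (hS.trans h2)) (not_le_of_gt (hf n))

lemma directedOn_lcs {𝓢 : Set (Subgroup G)} (hd : DirectedOn (· ≤ ·) 𝓢) (j : ℕ) :
    DirectedOn (· ≤ ·) ((fun S => lcs S j) '' 𝓢) := by
  rintro _ ⟨A, hA, rfl⟩ _ ⟨B, hB, rfl⟩
  obtain ⟨C, hC, h1, h2⟩ := hd A hA B hB
  exact ⟨_, ⟨C, hC, rfl⟩, lcs_mono h1 j, lcs_mono h2 j⟩

lemma lcs_sSup_le {𝓢 : Set (Subgroup G)} (hne : 𝓢.Nonempty) (hd : DirectedOn (· ≤ ·) 𝓢) (j : ℕ) :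
    lcs (sSup 𝓢) j ≤ sSup ((fun S => lcs S j) '' 𝓢) := by
  induction j with
  | zero => simp [lcs]
  | succ j ih =>
    refine commutator_le.mpr fun x hx y hy => ?_
    obtain ⟨_, ⟨A, hA, rfl⟩, hxA⟩ :=
      (mem_sSup_of_directedOn (hne.image _) (directedOn_lcs hd j)).mp (ih hx)
    obtain ⟨B, hB, hyB⟩ := (mem_sSup_of_directedOn hne hd).mp hy
    obtain ⟨C, hC, h1, h2⟩ := hd A hA B hB
    exact le_sSup (s := (fun S => lcs S (j + 1)) '' 𝓢) ⟨C, hC, rfl⟩
      (commutator_mem_commutator (lcs_mono h1 j hxA) (h2 hyB))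

lemma Mc.exists_cz_lcs (hG : Mc G) {𝓢 : Set (Subgroup G)} (hne : 𝓢.Nonempty)
    (hd : DirectedOn (· ≤ ·) 𝓢) (n : ℕ) :
    ∃ S ∈ 𝓢, ∀ j < n, cz (lcs S j) ≤ cz (lcs (sSup 𝓢) j) := by
  induction n with
  | zero =>
    obtain ⟨S, hS⟩ := hne
    exact ⟨S, hS, fun j hj => absurd hj (Nat.not_lt_zero j)⟩
  | succ n ih =>
    obtain ⟨S, hS, h⟩ := ih
    obtain ⟨_, ⟨A, hA, rfl⟩, hA'⟩ := hG.exists_cz_eq (hne.image _) (directedOn_lcs hd n)
    obtain ⟨C, hC, h1, h2⟩ := hd S hS A hA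
    refine ⟨C, hC, fun j hj => ?_⟩
    rcases Nat.lt_succ_iff_lt_or_eq.mp hj with hj | rfl
    · exact (cz_anti (lcs_mono h1 j)).trans (h j hj)
    · exact (cz_anti (lcs_mono h2 j)).trans (hA'.trans (cz_anti (lcs_sSup_le hne hd j)))

lemma Mc.exists_min (hG : Mc G) {𝓙 : Set (Subgroup G)} (hne : 𝓙.Nonempty) (c : ℕ) :
    ∃ J ∈ 𝓙, ∀ J' ∈ 𝓙, J ≤ J' → ∀ j < c, cz (lcs J j) ≤ cz (lcs J' j) := by
  induction c with
  | zero =>
    obtain ⟨S, hS⟩ := hne
    exact ⟨S, hS, fun _ _ _ j hj => absurd hj (Nat.not_lt_zero j)⟩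
  | succ c ih =>
    obtain ⟨J, hJ, h⟩ := ih
    obtain ⟨_, ⟨J₁, ⟨hJ₁, hJJ₁⟩, rfl⟩, hmin⟩ := hG.wf.has_min
      ((fun S => lcs S c) '' {S | S ∈ 𝓙 ∧ J ≤ S}) ⟨_, J, ⟨hJ, le_rfl⟩, rfl⟩
    refine ⟨J₁, hJ₁, fun J' hJ' hle j hj => ?_⟩
    rcases Nat.lt_succ_iff_lt_or_eq.mp hj with hj | rfl
    · exact (cz_anti (lcs_mono hJJ₁ j)).trans (h J' hJ' (hJJ₁.trans hle) j hj)
    · have h1 := hmin _ ⟨J', ⟨hJ', hJJ₁.trans hle⟩, rfl⟩
      exact ((cz_anti (lcs_mono hle j)).eq_of_not_lt h1).ge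

/-- `H` detects the first `k` terms of the upper central series of `L`. -/
def Detects (L H : Subgroup G) (k : ℕ) : Prop :=
  ∀ j < k, ∀ W : Subgroup G, W ≤ L → ⁅W, H⁆ ≤ zm L ⊥ j → W ≤ zm L ⊥ (j + 1)

/-- Bryant's lemma. -/
lemma bryant {L H H₁ X : Subgroup G} {k : ℕ} (h1 : H ≤ H₁) (h2 : H₁ ≤ L) (hX : X ≤ L)
    (hd : Detects L H k) (hc : cz (lcs H k) ≤ cz (lcs H₁ k)) (hXH : ⁅X, H⁆ ≤ zm L ⊥ k) :
    ⁅X, H₁⁆ ≤ zm L ⊥ k := by
  have hn : ∀ j, L ≤ nz (zm L ⊥ j) := self_nz_zm (nz_bot L)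
  have up : ∀ i j : ℕ, i + j = k → ⁅X, lcs H i⁆ ≤ zm L ⊥ j := by
    intro i
    induction i with
    | zero => intro j hj; rw [zero_add] at hj; rw [hj]; exact hXH
    | succ i ih =>
      intro j hj
      rw [commutator_comm]
      refine three (((lcs_le H i).trans (h1.trans h2)).trans (hn j)) ((h1.trans h2).trans (hn j))
        (hX.trans (hn j)) ?_ ?_
      · rw [commutator_comm H]
        refine (commutator_mono hXH (lcs_mono (h1.trans h2) i)).trans ?_
        rw [← hj, show i + 1 + j = j + i + 1 by ring]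
        exact comm_zm_lcs bot_le (nz_bot L) i j
      · exact (commutator_mono (ih (j + 1) (by omega)) (h1.trans h2)).trans (comm_zm_succ L ⊥ j)
  have down : ∀ j i : ℕ, i + j = k → ⁅X, lcs H₁ i⁆ ≤ zm L ⊥ j := by
    intro j
    induction j with
    | zero =>
      intro i hi
      rw [add_zero] at hi
      have h3 := up k 0 rfl
      rw [zm_zero, le_bot_iff, commutator_eq_bot_iff_le_centralizer] at h3 ⊢
      rw [hi]
      exact h3.trans hc
    | succ j ih =>
      intro i hi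
      refine hd j (by omega) _ ?_ ?_
      · exact (commutator_mono hX ((lcs_le H₁ i).trans h2)).trans (commutator_le_self L)
      · refine three (hX.trans (hn j)) (((lcs_le H₁ i).trans h2).trans (hn j))
          ((h1.trans h2).trans (hn j)) ?_ ?_
        · rw [commutator_comm]
          exact (commutator_mono le_rfl (commutator_mono le_rfl h1)).trans (ih (i + 1) (by omega))
        · rw [commutator_comm H]
          refine (commutator_mono hXH (lcs_mono h2 i)).trans ?_
          rw [← hi, show i + (j + 1) = j + i + 1 by ring]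
          exact comm_zm_lcs bot_le (nz_bot L) i j
  exact down k 0 (zero_add k)

lemma detects_of_cz {H P : Subgroup G} (hP : P ≤ H) (n : ℕ)
    (hc : ∀ j < n, cz (lcs P j) ≤ cz (lcs H j)) : Detects H P n := by
  induction n with
  | zero => intro j hj; exact absurd hj (Nat.not_lt_zero j)
  | succ n ih =>
    have ih' := ih fun j hj => hc j (by omega)
    intro j hj W hW hWP
    rcases Nat.lt_succ_iff_lt_or_eq.mp hj with hj | rfl
    · exact ih' j hj W hW hWP
    · exact le_zm_succ (nz_bot H) hW (bryant hP le_rfl hW ih' (hc j hj) hWP)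

/-- Bounded left Engel on a subgroup. -/
def BLE (H : Subgroup G) (e : G) : Prop := ∃ m : ℕ, ∀ y ∈ H, (ad e)^[m] y = 1

lemma nilp_sup_closure {H K : Subgroup G} {E : Set G} (hEH : E ⊆ H) (hE : ∀ e ∈ E, BLE H e)
    (hKH : K ≤ H) (hK : ⁅H, H⁆ ≤ K) (hKn : Nilp K) (F : Finset G) (hF : (F : Set G) ⊆ E) :
    Nilp (K ⊔ closure (F : Set G)) := by
  classical
  induction F using Finset.induction_on with
  | empty => simpa using hKn
  | insert a F _ ih =>
    rw [Finset.coe_insert, Set.insert_subset_iff] at hF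
    have h1 := ih hF.2
    have hle : K ⊔ closure (F : Set G) ≤ H :=
      sup_le hKH ((closure_le _).mpr (hF.2.trans hEH))
    have h2 : H ≤ nz (K ⊔ closure (F : Set G)) :=
      nz_of_comm_le ((commutator_mono hle le_rfl).trans (hK.trans le_sup_left))
    obtain ⟨m, hm⟩ := hE a hF.1
    refine (nilp_sup_of_engel h1 (h2 (hEH hF.1)) fun y hy => hm y (hle hy)).mono ?_
    refine sup_le (le_sup_of_le_right le_sup_left) ((closure_le _).mpr ?_)
    rw [Finset.coe_insert, Set.insert_subset_iff]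
    exact ⟨mem_sup_left (mem_zpowers a),
      fun y hy => mem_sup_right (mem_sup_right (subset_closure hy))⟩

/-- The Derakhshan-Wagner step. -/
lemma Mc.dw_step (hG : Mc G) {H : Subgroup G} {E : Set G} (hH : H = closure E)
    (hE : ∀ e ∈ E, BLE H e) (hK : Nilp ⁅H, H⁆) : Nilp H := by
  classical
  have hEH : E ⊆ H := hH ▸ subset_closure
  set K := ⁅H, H⁆ with hKdef
  have hKH : K ≤ H := commutator_le_self H
  have nK : H ≤ nz K := nz_comm le_normalizer le_normalizer
  set 𝓢 : Set (Subgroup G) := {P | ∃ F : Finset G, (F : Set G) ⊆ E ∧ P = K ⊔ closure (F : Set G)}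
  have hne : 𝓢.Nonempty := ⟨_, ∅, by simp, rfl⟩
  have hd : DirectedOn (· ≤ ·) 𝓢 := by
    rintro _ ⟨F₁, h1, rfl⟩ _ ⟨F₂, h2, rfl⟩
    refine ⟨_, ⟨F₁ ∪ F₂, by rw [Finset.coe_union]; exact Set.union_subset h1 h2, rfl⟩, ?_, ?_⟩
    · exact sup_le_sup_left (Subgroup.closure_mono (by simp)) _
    · exact sup_le_sup_left (Subgroup.closure_mono (by simp)) _
  have hle : ∀ P ∈ 𝓢, P ≤ H := by
    rintro _ ⟨F, hF, rfl⟩
    exact sup_le hKH ((closure_le _).mpr (hF.trans hEH))
  have hsup : sSup 𝓢 = H := by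
    refine le_antisymm (sSup_le hle) ?_
    refine hH.le.trans ((closure_le _).mpr fun e he => ?_)
    exact le_sSup (s := 𝓢) ⟨{e}, by simpa using he, rfl⟩ (mem_sup_right (subset_closure (by simp)))
  have hn : ∀ j, H ≤ nz (zm H ⊥ j) := self_nz_zm (nz_bot H)
  have key : ∀ i : ℕ, ∃ n : ℕ, zm K ⊥ i ≤ zm H ⊥ n := by
    intro i
    induction i with
    | zero => exact ⟨0, le_rfl⟩
    | succ i ih =>
      obtain ⟨n, hn'⟩ := ih
      obtain ⟨P, hP, hPc⟩ := hG.exists_cz_lcs hne hd (n + 1)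
      rw [hsup] at hPc
      have hPH := hle P hP
      have hdet := detects_of_cz hPH (n + 1) hPc
      obtain ⟨F, hF, hPF⟩ := hP
      have hKP : K ≤ P := hPF ▸ le_sup_left
      obtain ⟨s, hs⟩ : Nilp P := hPF ▸ nilp_sup_closure hEH hE hKH le_rfl hK F hF
      set Y := zm K ⊥ (i + 1) with hY
      have hYK : Y ≤ K := zm_le bot_le _
      have nY : H ≤ nz Y := nz_zm nK (nz_bot H) _
      have claim : ∀ k : ℕ, ∀ W : Subgroup G, W ≤ Y → ⁅W, P⁆ ≤ zm H ⊥ (n + k) →
          W ≤ zm H ⊥ (n + k + 1) := by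
        intro k
        induction k with
        | zero => intro W hW hWP; exact hdet n (by omega) W (hW.trans (hYK.trans hKH)) hWP
        | succ k ihk =>
          intro W hW hWP
          have hWH : W ≤ H := hW.trans (hYK.trans hKH)
          refine le_zm_succ (nz_bot H) hWH (ihk _ ?_ ?_)
          · exact (commutator_mono hW le_rfl).trans (comm_le_left_of_nz nY)
          · refine three (hWH.trans (hn _)) (hn _) (hPH.trans (hn _)) ?_ ?_
            · rw [commutator_comm]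
              refine (commutator_mono hW (commutator_mono le_rfl hPH)).trans ?_
              exact (comm_zm_succ K ⊥ i).trans (hn'.trans (zm_mono bot_le (nz_bot H) (by omega)))
            · rw [commutator_comm P]
              exact (commutator_mono hWP le_rfl).trans (comm_zm_succ H ⊥ (n + k))
      have claim2 : ∀ k : ℕ, Y ⊓ zm P ⊥ k ≤ zm H ⊥ (n + k) := by
        intro k
        induction k with
        | zero => exact inf_le_right.trans bot_le
        | succ k ihk =>
          refine claim k _ inf_le_left (le_trans (le_inf ?_ ?_) ihk)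
          · exact (commutator_mono inf_le_left hPH).trans (comm_le_left_of_nz nY)
          · exact (commutator_mono inf_le_right le_rfl).trans (comm_zm_succ P ⊥ k)
      refine ⟨n + s, le_trans (le_inf le_rfl ?_) (claim2 s)⟩
      exact (hYK.trans hKP).trans (le_zm_of_nilp hs)
  obtain ⟨c, hc⟩ := hK
  obtain ⟨n, hn'⟩ := key c
  exact ⟨n + 1, nilp_of_le_zm (le_zm_succ (nz_bot H) le_rfl ((le_zm_of_nilp hc).trans hn'))⟩

/-- The derived series, computed in the ambient group. -/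
def der (H : Subgroup G) : ℕ → Subgroup G
  | 0 => H
  | i + 1 => ⁅der H i, der H i⁆

/-- Solubility of a subgroup. -/
def Sol (H : Subgroup G) : Prop := ∃ d : ℕ, der H d = ⊥

lemma der_succ' (H : Subgroup G) (i : ℕ) : der H (i + 1) = der ⁅H, H⁆ i := by
  induction i with
  | zero => rfl
  | succ i ih => rw [der, ih]; rfl

lemma der_mono {A B : Subgroup G} (h : A ≤ B) (i : ℕ) : der A i ≤ der B i := by
  induction i with
  | zero => exact h
  | succ i ih => exact commutator_mono ih ih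

lemma der_le (H : Subgroup G) (i : ℕ) : der H i ≤ H := by
  induction i with
  | zero => exact le_rfl
  | succ i ih => exact (commutator_le_self _).trans ih

lemma nz_der {T A : Subgroup G} (h : T ≤ nz A) (i : ℕ) : T ≤ nz (der A i) := by
  induction i with
  | zero => exact h
  | succ i ih => exact nz_comm ih ih

lemma Sol.mono {A B : Subgroup G} (hB : Sol B) (h : A ≤ B) : Sol A := by
  obtain ⟨c, hc⟩ := hB
  exact ⟨c, le_bot_iff.mp ((der_mono h c).trans hc.le)⟩

lemma iterate_ad_mem_lcs {S : Subgroup G} {e : G} (he : e ∈ S) {y : G} (hy : y ∈ S) (k : ℕ) :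
    (ad e)^[k] y ∈ lcs S k := by
  induction k with
  | zero => exact hy
  | succ k ih =>
    rw [Function.iterate_succ_apply']
    have : ad e ((ad e)^[k] y) = ⁅((ad e)^[k] y)⁻¹, e⁻¹⁆ := by
      simp only [commutatorElement_def, ad]; group
    rw [this]
    exact commutator_mem_commutator (inv_mem ih) (inv_mem he)

lemma ble_of_mem_nilp {T S : Subgroup G} (hS : Nilp S) (hT : T ≤ nz S) {e : G} (he : e ∈ S) :
    BLE T e := by
  obtain ⟨c, hc⟩ := hS
  refine ⟨c + 1, fun y hy => ?_⟩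
  rw [Function.iterate_succ_apply]
  have h1 : ad e y ∈ S := by
    have : ad e y = (y⁻¹ * e⁻¹ * y) * e := by simp only [ad]; group
    rw [this]
    exact mul_mem (conj_mem_of_nz' (hT hy) (inv_mem he)) he
  have := iterate_ad_mem_lcs he h1 c
  rwa [hc, mem_bot] at this

/-- A soluble group generated by normal nilpotent subgroups is nilpotent. -/
lemma Mc.nilp_of_sSup (hG : Mc G) (d : ℕ) : ∀ (T : Subgroup G) (𝓢 : Set (Subgroup G)),
    T = sSup 𝓢 → (∀ S ∈ 𝓢, Nilp S ∧ T ≤ nz S) → der T d = ⊥ → Nilp T := by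
  induction d with
  | zero => intro T _ _ _ h; exact ⟨0, h⟩
  | succ d ih =>
    intro T 𝓢 hT h hd
    have hST : ∀ S ∈ 𝓢, S ≤ T := fun S hS => hT ▸ le_sSup hS
    have hK : Nilp ⁅T, T⁆ := by
      refine ih _ ((fun S => ⁅S, T⁆) '' 𝓢) (le_antisymm ?_ ?_) ?_ (by rwa [← der_succ'])
      · have nT : T ≤ nz (sSup ((fun S => ⁅S, T⁆) '' 𝓢)) := by
          rw [sSup_eq_iSup', iSup_eq_closure]
          refine nz_closure fun t ht s hs => ?_
          obtain ⟨⟨_, S, hS, rfl⟩, hs⟩ := Set.mem_iUnion.mp hs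
          exact Set.mem_iUnion.mpr ⟨⟨_, S, hS, rfl⟩,
            conj_mem_of_nz (nz_comm (h S hS).2 le_normalizer ht) hs⟩
        refine comm_le_of_le_cmod (hT.le.trans (sSup_le fun S hS => ?_))
        exact le_cmod ((hST S hS).trans nT) (le_sSup ⟨S, hS, rfl⟩)
      · refine sSup_le ?_
        rintro _ ⟨S, hS, rfl⟩
        exact commutator_mono (hST S hS) le_rfl
      · rintro _ ⟨S, hS, rfl⟩
        exact ⟨(h S hS).1.mono (comm_le_left_of_nz (h S hS).2),
          (commutator_le_self T).trans (nz_comm (h S hS).2 le_normalizer)⟩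
    refine hG.dw_step (E := ⋃ S ∈ 𝓢, (S : Set G)) ?_ ?_ hK
    · rw [hT]
      refine le_antisymm (sSup_le fun S hS x hx => subset_closure (Set.mem_biUnion hS hx)) ?_
      refine (closure_le _).mpr fun x hx => ?_
      obtain ⟨S, hS, hx⟩ := Set.mem_iUnion₂.mp hx
      exact le_sSup hS hx
    · intro e he
      obtain ⟨S, hS, he⟩ := Set.mem_iUnion₂.mp he
      exact ble_of_mem_nilp (h S hS).1 (h S hS).2 he

/-- The normal closure of `e` in `T`. -/
def ncl (T : Subgroup G) (e : G) : Subgroup G := closure {x | ∃ t ∈ T, x = t * e * t⁻¹}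

lemma nz_ncl (T : Subgroup G) (e : G) : T ≤ nz (ncl T e) := by
  refine nz_closure ?_
  rintro t ht _ ⟨s, hs, rfl⟩
  exact ⟨t * s, mul_mem ht hs, by group⟩

lemma ncl_le {T : Subgroup G} {e : G} (he : e ∈ T) : ncl T e ≤ T := by
  refine (closure_le _).mpr ?_
  rintro _ ⟨s, hs, rfl⟩
  exact mul_mem (mul_mem hs he) (inv_mem hs)

lemma mem_ncl (T : Subgroup G) (e : G) : e ∈ ncl T e :=
  subset_closure ⟨1, one_mem _, by group⟩

lemma ncl_mono {T T' : Subgroup G} (h : T ≤ T') (e : G) : ncl T e ≤ ncl T' e :=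
  closure_mono fun _ ⟨t, ht, hx⟩ => ⟨t, h ht, hx⟩

lemma Nilp.map_conj {S : Subgroup G} (hS : Nilp S) (g : G) :
    Nilp (S.map (MulAut.conj g).toMonoidHom) := by
  obtain ⟨c, hc⟩ := hS
  refine ⟨c, ?_⟩
  rw [lcs, ← map_lowerCentralSeries]
  change (lcs S c).map _ = ⊥
  rw [hc, Subgroup.map_bot]

lemma mem_map_conj {S : Subgroup G} {g x : G} :
    x ∈ S.map (MulAut.conj g).toMonoidHom ↔ g⁻¹ * x * g ∈ S := by
  constructor
  · rintro ⟨y, hy, rfl⟩
    have : g⁻¹ * (MulAut.conj g).toMonoidHom y * g = y := by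
      change g⁻¹ * (g * y * g⁻¹) * g = y
      group
    rwa [this]
  · intro h
    refine ⟨_, h, ?_⟩
    change g * (g⁻¹ * x * g) * g⁻¹ = x
    group

lemma Mc.ncl_step (hG : Mc G) {T T' : Subgroup G} {e : G} (he : e ∈ T) (hT : Sol T)
    (hT' : T' ≤ nz T) (hTT' : T ≤ T') (h : Nilp (ncl T e)) : Nilp (ncl T' e) := by
  have hle : ncl T' e ≤ T := by
    refine (closure_le _).mpr ?_
    rintro _ ⟨t, ht, rfl⟩
    exact conj_mem_of_nz (hT' ht) he
  obtain ⟨d, hd⟩ := hT.mono hle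
  refine hG.nilp_of_sSup d _ ((fun t => (ncl T e).map (MulAut.conj t).toMonoidHom) '' T')
    (le_antisymm ?_ ?_) ?_ hd
  · refine (closure_le _).mpr ?_
    rintro _ ⟨t, ht, rfl⟩
    refine le_sSup (s := (fun t => (ncl T e).map (MulAut.conj t).toMonoidHom) '' T') ⟨t, ht, rfl⟩ ?_
    rw [mem_map_conj]
    have : t⁻¹ * (t * e * t⁻¹) * t = e := by group
    rw [this]
    exact mem_ncl T e
  · refine sSup_le ?_
    rintro _ ⟨t, ht, rfl⟩ x hx
    rw [mem_map_conj] at hx
    have := conj_mem_of_nz (nz_ncl T' e ht) (ncl_mono hTT' e hx)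
    rwa [show t * (t⁻¹ * x * t) * t⁻¹ = x by group] at this
  · rintro _ ⟨t, ht, rfl⟩
    refine ⟨h.map_conj t, hle.trans (le_normalizer_iff.mpr fun u hu x hx => ?_)⟩
    rw [mem_map_conj] at hx ⊢
    have := conj_mem_of_nz (nz_ncl T e (conj_mem_of_nz' (hT' ht) hu)) hx
    rwa [show t⁻¹ * u * t * (t⁻¹ * x * t) * (t⁻¹ * u * t)⁻¹ = t⁻¹ * (u * x * u⁻¹) * t by group]
      at this

/-- In a soluble group with the minimal condition on centralizers, the normal closure of a bounded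
left Engel element is nilpotent. -/
lemma Mc.nilp_ncl (hG : Mc G) {H : Subgroup G} (hH : Sol H) {e : G} (he : e ∈ H) (hE : BLE H e) :
    Nilp (ncl H e) := by
  obtain ⟨m, hm⟩ := hE
  obtain ⟨d, hd⟩ := hH
  have hz : zpowers e ≤ H := (zpowers_le (G := G)).mpr he
  have key : ∀ j i : ℕ, i + j = d → Nilp (ncl (zpowers e ⊔ der H i) e) := by
    intro j
    induction j with
    | zero =>
      intro i hi
      rw [add_zero] at hi
      rw [hi, hd, sup_bot_eq]
      refine Nilp.mono ⟨1, ?_⟩ (ncl_le (mem_zpowers e))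
      exact (Subgroup.commutator_self_eq_bot_iff (H := zpowers e)).mpr inferInstance
    | succ j ih =>
      intro i hi
      have h1 := ih (i + 1) (by omega)
      set L := zpowers e ⊔ der H i with hL
      set K := der H (i + 1) with hK
      have hLH : L ≤ H := sup_le hz (der_le H i)
      have hKD : K ≤ der H i := commutator_le_self _
      have hKL : K ≤ L := hKD.trans le_sup_right
      have nK : L ≤ nz K := hLH.trans (nz_der le_normalizer _)
      have h2 : ∀ k : ℕ, Nilp (ncl (zpowers e ⊔ zm L K k) e) := by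
        intro k
        induction k with
        | zero => exact h1
        | succ k ihk =>
          refine hG.ncl_step (mem_sup_left (mem_zpowers e)) (Sol.mono ⟨d, hd⟩ ?_)
            (sup_zm_nz' le_sup_left hKL nK k) (sup_le_sup_left (zm_le_succ hKL nK k) _) ihk
          exact sup_le hz ((zm_le hKL k).trans hLH)
      refine (h2 m).mono (ncl_mono (sup_le_sup_left (fun y hy => ?_) _) e)
      refine mem_zm_of_iterate (nz_der le_normalizer i he) (nz_der le_normalizer _ he)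
        ((der_le H i).trans (nz_der le_normalizer _)) hKD le_rfl m y hy ?_
      rw [hm y (der_le H i hy)]
      exact one_mem _
  exact (key d 0 (zero_add d)).mono (ncl_mono le_sup_right e)

/-- A soluble group generated by bounded left Engel elements is nilpotent. -/
lemma Mc.nilp_of_sol (hG : Mc G) {H : Subgroup G} (hH : Sol H) {E : Set G} (hE : H = closure E)
    (hE' : ∀ e ∈ E, BLE H e) : Nilp H := by
  have hEH : E ⊆ H := hE ▸ subset_closure
  obtain ⟨d, hd⟩ := hH
  refine hG.nilp_of_sSup d H ((fun e => ncl H e) '' E) (le_antisymm ?_ ?_) ?_ hd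
  · exact hE.le.trans ((closure_le _).mpr fun e he =>
      le_sSup (s := (fun e => ncl H e) '' E) ⟨e, he, rfl⟩ (mem_ncl H e))
  · refine sSup_le ?_
    rintro _ ⟨e, he, rfl⟩
    exact ncl_le (hEH he)
  · rintro _ ⟨e, he, rfl⟩
    exact ⟨hG.nilp_ncl ⟨d, hd⟩ (hEH he) (hE' e he), nz_ncl H e⟩

/-- Local nilpotency. -/
def LN (U : Subgroup G) : Prop := ∀ F : Finset G, (F : Set G) ⊆ U → Nilp (closure (F : Set G))

lemma exists_zm_two {P : Subgroup G} (hP : Nilp P) (hna : ¬ P ≤ cz P) :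
    ∃ z ∈ zm P ⊥ 2, z ∉ cz P := by
  by_contra hcon
  push Not at hcon
  have h1 : zm P ⊥ 2 ≤ zm P ⊥ 1 := by
    refine le_zm_succ (nz_bot P) (zm_le bot_le 2) ?_
    rw [zm_zero, le_bot_iff, commutator_eq_bot_iff_le_centralizer]
    exact hcon
  have h2 : ∀ k, zm P ⊥ k ≤ zm P ⊥ 1 := by
    intro k
    induction k with
    | zero => exact bot_le
    | succ k ih =>
      exact le_trans (le_zm_succ (nz_bot P) (zm_le bot_le _) ((comm_zm_succ P ⊥ k).trans ih)) h1
  obtain ⟨c, hc⟩ := hP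
  refine hna (((le_zm_of_nilp hc).trans (h2 c)).trans ?_)
  rw [← commutator_eq_bot_iff_le_centralizer, ← le_bot_iff]
  exact comm_zm_succ P ⊥ 0

/-- Bryant's theorem: locally nilpotent groups with the minimal condition on centralizers are
soluble. -/
lemma Mc.sol_of_ln (hG : Mc G) (X : Subgroup G) : ∀ U : Subgroup G, U ≤ cz X → LN U → Sol U := by
  classical
  induction X using hG.wf.induction with
  | _ X ih =>
    intro U hUX hU
    by_cases hab : U ≤ cz U
    · exact ⟨1, commutator_eq_bot_iff_le_centralizer.mpr hab⟩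
    set 𝓢 : Set (Subgroup G) := {P | ∃ F : Finset G, (F : Set G) ⊆ U ∧ P = closure (F : Set G)}
    have hne : 𝓢.Nonempty := ⟨_, ∅, by simp, rfl⟩
    have hd : DirectedOn (· ≤ ·) 𝓢 := by
      rintro _ ⟨F₁, h1, rfl⟩ _ ⟨F₂, h2, rfl⟩
      refine ⟨_, ⟨F₁ ∪ F₂, by rw [Finset.coe_union]; exact Set.union_subset h1 h2, rfl⟩, ?_, ?_⟩
      · exact Subgroup.closure_mono (by simp)
      · exact Subgroup.closure_mono (by simp)
    have hle : ∀ P ∈ 𝓢, P ≤ U := by
      rintro _ ⟨F, hF, rfl⟩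
      exact (closure_le _).mpr hF
    have hsup : sSup 𝓢 = U := by
      refine le_antisymm (sSup_le hle) fun e he => ?_
      exact le_sSup (s := 𝓢) ⟨{e}, by simpa using he, rfl⟩ (subset_closure (by simp))
    obtain ⟨P, hP, hPc⟩ := hG.exists_cz_lcs hne hd 2
    rw [hsup] at hPc
    have hPU := hle P hP
    obtain ⟨F, hF, hPF⟩ := hP
    have hPn : Nilp P := hPF ▸ hU F hF
    have h0 : cz P ≤ cz U := hPc 0 (by norm_num)
    have hna : ¬ P ≤ cz P := fun h => hab ((le_centralizer_iff.mp (h.trans h0)).trans h0)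
    obtain ⟨z, hz, hz'⟩ := exists_zm_two hPn hna
    have hzU : z ∈ U := hPU (zm_le bot_le 2 hz)
    have hz1 : z ∈ cz ⁅U, U⁆ := by
      refine hPc 1 (by norm_num) ?_
      have := comm_zm_lcs (L := P) (K := ⊥) bot_le (nz_bot P) 1 0
      rw [zm_zero, le_bot_iff, commutator_eq_bot_iff_le_centralizer] at this
      exact this hz
    have hlt : cz (X ⊔ zpowers z) < cz X := by
      refine lt_of_le_of_ne (cz_anti le_sup_left) fun h => hz' ?_
      have : U ≤ cz (zpowers z) := (hUX.trans h.ge).trans (cz_anti le_sup_right)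
      exact cz_anti hPU (le_centralizer_iff.mp this (mem_zpowers z))
    have hsol : Sol ⁅U, U⁆ := by
      refine ih _ hlt _ ?_ fun F hF => hU F (hF.trans (commutator_le_self U))
      refine le_centralizer_iff.mp (sup_le ?_ ((zpowers_le (G := G)).mpr hz1))
      exact le_centralizer_iff.mp ((commutator_le_self U).trans hUX)
    obtain ⟨d, hd⟩ := hsol
    exact ⟨d + 1, by rwa [der_succ']⟩

lemma Mc.sol_of_ln' (hG : Mc G) {U : Subgroup G} (hU : LN U) : Sol U :=
  hG.sol_of_ln ⊥ U (le_centralizer_iff.mp bot_le) hU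

end Pool.Agent.Lib.MP_3f2ebd_al
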