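import Pool.Agent.Lib.MP_3f2ebd_al.Rel

/-! Groups with a finite series whose factors satisfy the minimal condition on centralizers. -/

set_option autoImplicit false

namespace Pool.Agent.Lib.MP_3f2ebd_al

open Subgroup
open scoped commutatorElement

variable {G : Type*} [Group G]

/-- The section `M / K` satisfies the minimal condition on centralizers. -/
def McMod (K M : Subgroup G) : Prop :=
  ∀ X ⊆ (M : Set G), ∃ X₀ ⊆ X, X₀.Finite ∧ ∀ h ∈ M, (∀ x ∈ X₀, ⁅h, x⁆ ∈ K) → ∀ x ∈ X, ⁅h, x⁆ ∈ K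

/-- `M` has a series of length `k` with such sections. -/
def Poly : ℕ → Subgroup G → Prop
  | 0, M => M = ⊥
  | k + 1, M => ∃ K, K ≤ M ∧ M ≤ nz K ∧ McMod K M ∧ Poly k K

lemma Poly.mono : ∀ {k : ℕ} {M P : Subgroup G}, Poly k M → P ≤ M → Poly k P
  | 0, _, _, h, hP => le_bot_iff.mp (hP.trans (le_of_eq h))
  | _ + 1, _, P, ⟨K, _, h2, h3, h4⟩, hP => by
    refine ⟨K ⊓ P, inf_le_right, nz_inf (hP.trans h2) le_normalizer, fun X hX => ?_,
      h4.mono inf_le_left⟩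
    obtain ⟨X₀, a1, a2, a3⟩ := h3 X (hX.trans hP)
    exact ⟨X₀, a1, a2, fun h hh hx x hx' => ⟨a3 h (hP hh) (fun y hy => (hx y hy).1) x hx',
      commutator_le_self P (commutator_mem_commutator hh (hX hx'))⟩⟩

lemma finite_pre {α β : Type*} {f : α → β} {X : Set α} {Y : Set β} (h : Y ⊆ f '' X) (hY : Y.Finite) :
    ∃ X₀ ⊆ X, X₀.Finite ∧ Y ⊆ f '' X₀ := by
  choose g h1 h2 using h
  have := hY.to_subtype
  exact ⟨Set.range fun y : Y => g y.2, by rintro _ ⟨y, rfl⟩; exact h1 y.2, Set.finite_range _,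
    fun y hy => ⟨_, ⟨⟨y, hy⟩, rfl⟩, h2 hy⟩⟩

lemma McMod.mc {K M L : Subgroup G} (h : McMod K M) {Q : Type*} [Group Q] (φ : L →* Q)
    (hφ : ∀ x : L, φ x = 1 ↔ (x : G) ∈ K) : Mc ((M.subgroupOf L).map φ) := by
  intro X
  choose g h1 h2 using fun x : (M.subgroupOf L).map φ => x.2
  obtain ⟨Y, a1, a2, a3⟩ := h ((fun x => (g x : G)) '' X) (by rintro _ ⟨x, -, rfl⟩; exact h1 x)
  obtain ⟨X₀, b1, b2, b3⟩ := finite_pre a1 a2
  have key : ∀ z x, ⁅(g z : G), (g x : G)⁆ ∈ K ↔ x * z = z * x := fun z x => by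
    rw [← show ((⁅g z, g x⁆ : L) : G) = ⁅(g z : G), (g x : G)⁆ from rfl, ← hφ,
      map_commutatorElement, h2, h2, commutatorElement_eq_one_iff_mul_comm, eq_comm,
      Subtype.ext_iff]
    rfl
  refine ⟨b2.toFinset, by simpa using b1, le_antisymm (centralizer_le (by simpa using b1))
    fun z hz x hx => (key z x).mp (a3 _ (h1 z) (fun y hy => ?_) _ ⟨x, hx, rfl⟩)⟩
  obtain ⟨w, hw, rfl⟩ := b3 hy
  exact (key z w).mpr (hz w (by simpa using hw))

lemma rel_step {K M : Subgroup G} (hK : K ≤ M) (hM : M ≤ nz K) (h : McMod K M) {e : G}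
    (eK : e ∈ nz K) (eM : e ∈ nz M) (he : BLE ⊤ e) :
    ∃ n, SN (zpowers e ⊔ K) n (zpowers e ⊔ M) := by
  set L := zpowers e ⊔ M
  have hKL : K ≤ L := hK.trans le_sup_right
  have : (K.subgroupOf L).Normal :=
    (normal_subgroupOf_iff_le_normalizer hKL).mpr (sup_le (zpowers_le_nz eK) hM)
  have : (M.subgroupOf L).Normal :=
    (normal_subgroupOf_iff_le_normalizer le_sup_right).mpr (sup_le (zpowers_le_nz eM) le_normalizer)
  let φ := QuotientGroup.mk' (K.subgroupOf L)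
  have hφ : Function.Surjective φ := QuotientGroup.mk'_surjective _
  have hN : ((M.subgroupOf L).map φ).Normal := Normal.map inferInstance φ hφ
  let e' : L := ⟨e, mem_sup_left (mem_zpowers e)⟩
  have h1 : ∀ g, ⁅g, φ e'⁆ ∈ (M.subgroupOf L).map φ := fun g => by
    obtain ⟨g, rfl⟩ := hφ g
    exact ⟨⁅g, e'⁆, comm_zpowers_sup_le eM (commutator_mem_commutator g.2 e'.2),
      map_commutatorElement φ _ _⟩
  have h2 : ∀ g, ∀ a ∈ {a | ∃ t, a = t * φ e' * t⁻¹}, g * a * g⁻¹ ∈ {a | ∃ t, a = t * φ e' * t⁻¹} := by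
    rintro g _ ⟨t, rfl⟩
    exact ⟨g * t, by group⟩
  have h3 := nilp_closure_rel (h.mc φ fun x => QuotientGroup.eq_one_iff x)
    (E := {a | ∃ t, a = t * φ e' * t⁻¹}) (by
      rintro _ ⟨s, rfl⟩ _ ⟨t, rfl⟩
      rw [show (s * φ e' * s⁻¹)⁻¹ * (t * φ e' * t⁻¹) =
        (φ e')⁻¹ * (⁅s, φ e'⁆⁻¹ * ⁅t, φ e'⁆) * (φ e')⁻¹⁻¹ by
          simp only [commutatorElement_def]; group]
      exact hN.conj_mem _ (mul_mem (inv_mem (h1 s)) (h1 t)) _) h2 (by
      rintro _ ⟨t, rfl⟩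
      obtain ⟨m, hm⟩ := he
      refine ⟨m, fun y _ => ?_⟩
      obtain ⟨z, hz⟩ := hφ (t⁻¹ * y * t)
      have h4 : (ad e')^[m] z = 1 :=
        L.subtype_injective ((map_ad L.subtype e' z m).trans (hm _ (mem_top _)))
      have h5 := iterate_ad_conj t (φ e') (φ z) m
      rw [← map_ad, h4, hz] at h5
      simpa [mul_assoc] using h5)
  obtain ⟨n, hn⟩ := sn_of_nilp h3 ((zpowers_le (G := L ⧸ K.subgroupOf L)).mpr
    (subset_closure ⟨1, show φ e' = _ by group⟩))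
  have h4 := (((hn.trans (sn_one le_top (nz_closure fun t _ => h2 t))).comap φ).map L.subtype)
  rw [← MonoidHom.map_zpowers, comap_map_eq, QuotientGroup.ker_mk', Subgroup.map_sup,
    MonoidHom.map_zpowers, map_subgroupOf_eq_of_le hKL, comap_top, ← MonoidHom.range_eq_map,
    subtype_range] at h4
  exact ⟨_, h4⟩

lemma nz_fin {x y : G} {m : ℕ} (h : (ad x)^[m] y = 1) :
    x ∈ nz (closure {z | ∃ i ≤ m, z = (x ^ i)⁻¹ * y * x ^ i}) := by
  have h0 : ∀ i, (ad x)^[m + i] y = 1 := fun i => by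
    rw [add_comm, Function.iterate_add_apply, h]
    exact Function.iterate_fixed (by simp [ad]) i
  have h1 : ∀ i, (ad x)^[i] y ∈ closure {z | ∃ j ≤ i, z = (x ^ j)⁻¹ * y * x ^ j} := fun i => by
    induction i with
    | zero => exact subset_closure ⟨0, le_rfl, by simp⟩
    | succ i ih =>
      rw [Function.iterate_succ_apply', ad]
      refine mul_mem (inv_mem (Subgroup.closure_mono (by
        rintro z ⟨j, hj, hz⟩
        exact ⟨j, by omega, hz⟩) ih)) ?_
      have := conj_closure (g := x⁻¹)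
        (D := closure {z | ∃ j ≤ i + 1, z = (x ^ j)⁻¹ * y * x ^ j}) (by
          rintro _ ⟨j, hj, rfl⟩
          exact subset_closure ⟨j + 1, by omega, by group⟩) _ ih
      rwa [inv_inv] at this
  set S := closure (Set.range fun i => (ad x)^[i] y)
  have h2 : ∀ i, (ad x)^[i] y ∈ S := fun i => subset_closure ⟨i, rfl⟩
  have h3 : ∀ j i, m ≤ i + j → x * (ad x)^[i] y * x⁻¹ ∈ S := by
    intro j
    induction j with
    | zero =>
      intro i hi
      obtain ⟨k, rfl⟩ := Nat.exists_eq_add_of_le (show m ≤ i from hi)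
      rw [h0]
      simp
    | succ j ih =>
      intro i hi
      have := mul_mem (h2 i) (inv_mem (ih (i + 1) (by omega)))
      rw [Function.iterate_succ_apply', ad] at this
      convert this using 1
      group
  have h4 : x ∈ nz S := by
    refine mem_nz_of (conj_closure ?_) (conj_closure ?_)
    · rintro _ ⟨i, rfl⟩
      exact h3 m i le_add_self
    · rintro _ ⟨i, rfl⟩
      have := mul_mem (h2 i) (h2 (i + 1))
      rw [Function.iterate_succ_apply', ad, mul_inv_cancel_left] at this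
      rw [inv_inv]
      exact this
  have h5 : S = closure {z | ∃ i ≤ m, z = (x ^ i)⁻¹ * y * x ^ i} := by
    refine le_antisymm ((closure_le _).mpr ?_) ((closure_le _).mpr ?_)
    · rintro _ ⟨i, rfl⟩
      rcases le_total i m with hi | hi
      · refine Subgroup.closure_mono ?_ (h1 i)
        rintro z ⟨j, hj, hz⟩
        exact ⟨j, hj.trans hi, hz⟩
      · obtain ⟨k, rfl⟩ := Nat.exists_eq_add_of_le hi
        simp only [h0]
        exact one_mem _
    · rintro _ ⟨i, -, rfl⟩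
      exact conj_mem_of_nz' (pow_mem h4 i) (h2 0)
  rwa [← h5]

lemma McMod.core {K M : Subgroup G} (hM : M ≤ nz K) (h : McMod K M) {e : G} (eM : e ∈ nz M)
    (he : BLE ⊤ e) : ∃ K', K' ≤ K ∧ M ≤ nz K' ∧ e ∈ nz K' ∧ McMod K' M := by
  obtain ⟨m, hm⟩ := he
  let K' : Subgroup G := ⨅ t ∈ zpowers e, K.comap (MulAut.conj t⁻¹).toMonoidHom
  have hK : ∀ y, y ∈ K' ↔ ∀ t ∈ zpowers e, t⁻¹ * y * t ∈ K := fun y => by
    simp [K', mem_iInf]
  refine ⟨K', fun y hy => by simpa using (hK y).mp hy 1 (one_mem _),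
    le_normalizer_iff.mpr fun g hg y hy => (hK _).mpr fun t ht => ?_,
    zpowers_le.mp (le_normalizer_iff.mpr fun g hg y hy => (hK _).mpr fun t ht => ?_),
    fun X hX => ?_⟩
  · have := conj_mem_of_nz (hM (conj_mem_of_nz' (zpowers_le_nz eM ht) hg)) ((hK y).mp hy t ht)
    convert this using 1
    group
  · have := (hK y).mp hy (g⁻¹ * t) (mul_mem (inv_mem hg) ht)
    convert this using 1
    group
  · have h1 : ∀ i : ℕ, ∃ X₀ ⊆ X, X₀.Finite ∧ ∀ z ∈ M, (∀ x ∈ X₀, (e ^ i)⁻¹ * ⁅z, x⁆ * e ^ i ∈ K) →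
        ∀ x ∈ X, (e ^ i)⁻¹ * ⁅z, x⁆ * e ^ i ∈ K := fun i => by
      have h2 : ∀ z x, (e ^ i)⁻¹ * ⁅z, x⁆ * e ^ i =
          ⁅(e ^ i)⁻¹ * z * e ^ i, (e ^ i)⁻¹ * x * e ^ i⁆ := fun z x => by
        simp only [commutatorElement_def]
        group
      obtain ⟨Y, a1, a2, a3⟩ := h ((fun x => (e ^ i)⁻¹ * x * e ^ i) '' X) (by
        rintro _ ⟨x, hx, rfl⟩
        exact conj_mem_of_nz' (pow_mem eM i) (hX hx))
      obtain ⟨X₀, b1, b2, b3⟩ := finite_pre a1 a2
      refine ⟨X₀, b1, b2, fun z hz hx x hx' => ?_⟩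
      rw [h2]
      refine a3 _ (conj_mem_of_nz' (pow_mem eM i) hz) (fun y hy => ?_) _ ⟨x, hx', rfl⟩
      obtain ⟨w, hw, rfl⟩ := b3 hy
      exact h2 z w ▸ hx w hw
    choose Y a1 a2 a3 using h1
    refine ⟨⋃ i ∈ Set.Iic m, Y i, Set.iUnion₂_subset fun i _ => a1 i,
      (Set.finite_Iic m).biUnion fun i _ => a2 i, fun z hz hx x hx' => (hK _).mpr fun t ht => ?_⟩
    refine (closure_le K).mpr ?_ (conj_mem_of_nz' (zpowers_le_nz (nz_fin (hm ⁅z, x⁆ (mem_top _))) ht)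
      (subset_closure ⟨0, Nat.zero_le _, by simp⟩))
    rintro _ ⟨i, hi, rfl⟩
    exact a3 i z hz (fun y hy => (hK _).mp (hx y (Set.mem_biUnion hi hy)) _
      (pow_mem (mem_zpowers e) i)) x hx'

lemma Poly.sn {e : G} (he : BLE ⊤ e) (k : ℕ) : ∀ M : Subgroup G, Poly k M → e ∈ nz M →
    ∃ n, SN (zpowers e) n (zpowers e ⊔ M) := by
  induction k with
  | zero =>
    intro M h _
    rw [show M = ⊥ from h, sup_bot_eq]
    exact ⟨0, rfl⟩
  | succ k ih =>
    rintro M ⟨K, h1, h2, h3, h4⟩ eM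
    obtain ⟨K', a1, a2, a3, a4⟩ := h3.core h2 eM he
    obtain ⟨n, hn⟩ := ih K' (h4.mono a1) a3
    obtain ⟨m, hm⟩ := rel_step (a1.trans h1) a2 a4 a3 eM he
    exact ⟨_, hn.trans hm⟩

lemma der_add (H : Subgroup G) (i j : ℕ) : der H (i + j) = der (der H i) j := by
  induction j with
  | zero => rfl
  | succ j ih => exact congrArg (fun K => ⁅K, K⁆) ih

lemma Poly.sol (k : ℕ) : ∀ M : Subgroup G, Poly k M → LN M → Sol M := by
  induction k with
  | zero => exact fun M h _ => ⟨0, h⟩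
  | succ k ih =>
    rintro M ⟨K, h1, h2, h3, h4⟩ hM
    have : (K.subgroupOf M).Normal := (normal_subgroupOf_iff_le_normalizer h1).mpr h2
    obtain ⟨d, hd⟩ := sol_in (h3.mc (QuotientGroup.mk' (K.subgroupOf M))
      fun x => QuotientGroup.eq_one_iff x) le_rfl ((hM.subgroupOf M).map _)
    obtain ⟨d', hd'⟩ := ih K h4 (hM.mono h1)
    rw [← map_der, Subgroup.map_eq_bot_iff, QuotientGroup.ker_mk'] at hd
    have h5 := map_mono (f := M.subtype) hd
    rw [map_der, map_subgroupOf_eq_of_le le_rfl, map_subgroupOf_eq_of_le h1] at h5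
    exact ⟨d + d', le_bot_iff.mp ((der_add M d d').le.trans ((der_mono h5 d').trans hd'.le))⟩

end Pool.Agent.Lib.MP_3f2ebd_al
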