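import Pool.Agent.Lib.MP_3f2ebd_al.SN

/-! Bounded left Engel elements in one coset of a normal subgroup with the minimal condition on
centralizers. -/

set_option autoImplicit false

namespace Pool.Agent.Lib.MP_3f2ebd_al

open Subgroup
open scoped commutatorElement

variable {G : Type*} [Group G] {G' : Type*} [Group G']

lemma Nilp.map {H : Subgroup G} (h : Nilp H) (f : G →* G') : Nilp (H.map f) := by
  obtain ⟨c, hc⟩ := h
  refine ⟨c, ?_⟩
  rw [lcs, ← map_lowerCentralSeries]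
  change (lcs H c).map _ = ⊥
  rw [hc, Subgroup.map_bot]

lemma Nilp.of_map {H : Subgroup G} {f : G →* G'} (hf : Function.Injective f) (h : Nilp (H.map f)) :
    Nilp H := by
  obtain ⟨c, hc⟩ := h
  rw [lcs, ← map_lowerCentralSeries] at hc
  exact ⟨c, (map_eq_bot_iff_of_injective _ hf).mp hc⟩

lemma map_der (H : Subgroup G) (f : G →* G') (i : ℕ) : (der H i).map f = der (H.map f) i := by
  induction i with
  | zero => rfl
  | succ i ih => rw [der, der, Subgroup.map_commutator, ih]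

lemma map_ad (f : G →* G') (x y : G) (m : ℕ) : f ((ad x)^[m] y) = (ad (f x))^[m] (f y) := by
  induction m with
  | zero => rfl
  | succ m ih =>
    rw [Function.iterate_succ_apply', Function.iterate_succ_apply', ← ih]
    simp [ad]

lemma LN.map {U : Subgroup G} (h : LN U) (f : G →* G') : LN (U.map f) := by
  classical
  intro F hF
  choose! g h1 h2 using fun x (hx : x ∈ (F : Set G')) => hF hx
  have := (h (F.image g) (by
    intro z hz
    obtain ⟨x, hx, rfl⟩ := Finset.mem_image.mp hz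
    exact h1 x hx)).map f
  rw [MonoidHom.map_closure] at this
  exact this.mono (closure_mono fun x hx => ⟨g x, by simpa using ⟨x, hx, rfl⟩, h2 x hx⟩)

lemma LN.mono {U V : Subgroup G} (h : LN U) (hV : V ≤ U) : LN V := fun F hF => h F (hF.trans hV)

lemma LN.subgroupOf {U : Subgroup G} (h : LN U) (M : Subgroup G) : LN (U.subgroupOf M) := by
  classical
  intro F hF
  refine Nilp.of_map M.subtype_injective ?_
  rw [MonoidHom.map_closure, ← Finset.coe_image]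
  refine h _ ?_
  intro z hz
  obtain ⟨x, hx, rfl⟩ := Finset.mem_image.mp hz
  exact hF hx

lemma sol_in {M U : Subgroup G} (hM : Mc M) (hU : U ≤ M) (h : LN U) : Sol U := by
  obtain ⟨d, hd⟩ := hM.sol_of_ln' (h.subgroupOf M)
  have := map_der (U.subgroupOf M) M.subtype d
  rw [hd, Subgroup.map_bot, map_subgroupOf_eq_of_le hU] at this
  exact ⟨d, this.symm⟩

lemma nilp_in {M U : Subgroup G} (hM : Mc M) (hU : U ≤ M) (h : Sol U) (hE : ∀ e ∈ U, BLE U e) :
    Nilp U := by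
  obtain ⟨d, hd⟩ := h
  have h1 := map_der (U.subgroupOf M) M.subtype d
  rw [map_subgroupOf_eq_of_le hU, hd, map_eq_bot_iff_of_injective _ M.subtype_injective] at h1
  have h2 := (hM.nilp_of_sol ⟨d, h1⟩ (closure_eq _).symm fun e he => by
    obtain ⟨m, hm⟩ := hE e he
    exact ⟨m, fun y hy => M.subtype_injective ((map_ad M.subtype e y m).trans (hm y hy))⟩).map
      M.subtype
  rwa [map_subgroupOf_eq_of_le hU] at h2

section

variable {f : G →* G'}

lemma comap_cmod (hf : Function.Surjective f) (N B : Subgroup G') :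
    (cmod N B).comap f = cmod (N.comap f) (B.comap f) := by
  ext x
  rw [mem_comap, mem_cmod, mem_cmod, nz, nz, ← comap_normalizer_eq_of_surjective _ hf]
  refine and_congr Iff.rfl ⟨fun h b hb => ?_, fun h b hb => ?_⟩
  · rw [mem_comap, map_commutatorElement]
    exact h _ hb
  · obtain ⟨b, rfl⟩ := hf b
    have := h b hb
    rwa [mem_comap, map_commutatorElement] at this

lemma comap_zm (hf : Function.Bijective f) (L : Subgroup G') (j : ℕ) :
    (zm L ⊥ j).comap f = zm (L.comap f) ⊥ j := by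
  induction j with
  | zero => exact (MonoidHom.ker_eq_bot_iff f).mpr hf.1
  | succ j ih => rw [zm_succ, zm_succ, comap_inf, comap_cmod hf.2, ih]

lemma comap_env (hf : Function.Bijective f) (J : Subgroup G') (k : ℕ) :
    (env J k).comap f = env (J.comap f) k := by
  induction k with
  | zero => rfl
  | succ k ih =>
    rw [env_succ, env_succ, comap_inf, comap_cmod hf.2, comap_inf, comap_cmod hf.2, comap_zm hf, ih]

end

lemma envelope_rel {M : Subgroup G} [M.Normal] (hM : Mc M) {𝓙 : Set (Subgroup G)}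
    (hne : 𝓙.Nonempty) {c : ℕ} (hc : ∀ J ∈ 𝓙, lcs J c = ⊥) :
    ∃ J ∈ 𝓙, ∃ D, Nilp D ∧ nz J ≤ nz D ∧ ∀ J' ∈ 𝓙, J ≤ J' → J' ⊓ M ≤ D := by
  obtain ⟨_, ⟨J, hJ, rfl⟩, hmin⟩ := hM.exists_min (hne.image fun J => J.subgroupOf M) c
  refine ⟨J, hJ, (zm (env (J.subgroupOf M) c) ⊥ c).map M.subtype,
    Nilp.map ⟨c, lcs_zm_bot _ c⟩ _, le_normalizer_iff.mpr fun g hg => ?_, fun J' hJ' hle => ?_⟩
  · rintro _ ⟨x, hx, rfl⟩
    have h1 : (J.subgroupOf M).comap (MulAut.conjNormal g).toMonoidHom = J.subgroupOf M := by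
      ext y
      exact (mem_normalizer_iff.mp hg y).symm
    have hb : Function.Bijective (MulAut.conjNormal (H := M) g).toMonoidHom :=
      (MulAut.conjNormal g).bijective
    rw [← h1, ← comap_env hb, ← comap_zm hb] at hx
    exact ⟨_, hx, rfl⟩
  · rw [← subgroupOf_map_subtype]
    refine map_mono (le_envelope (J' := J'.subgroupOf M) (comap_mono hle) ?_ (hmin _ ⟨J', hJ', rfl⟩ (comap_mono hle)))
    rw [← map_eq_bot_iff_of_injective _ M.subtype_injective, map_lowerCentralSeries,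
      subgroupOf_map_subtype]
    exact le_bot_iff.mp ((lcs_mono inf_le_left c).trans (hc J' hJ').le)

section

variable {M : Subgroup G} {E : Set G}

lemma le_coset (hE : ∀ e ∈ E, ∀ e' ∈ E, e⁻¹ * e' ∈ M) {U : Subgroup G}
    (hU : U ≤ closure ((U : Set G) ∩ E)) {e : G} (he : e ∈ U) (he' : e ∈ E) :
    U ≤ zpowers e ⊔ U ⊓ M :=
  hU.trans ((closure_le _).mpr fun x hx => by
    rw [← mul_inv_cancel_left e x]
    exact mul_mem (mem_sup_left (mem_zpowers e))
      (mem_sup_right ⟨U.mul_mem (U.inv_mem he) hx.1, hE e he' x hx.2⟩))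

lemma exists_maximal_rel [M.Normal] (hM : Mc M) (hE : ∀ e ∈ E, ∀ e' ∈ E, e⁻¹ * e' ∈ M)
    (hEL : ∀ e ∈ E, BLE ⊤ e) {U : Subgroup G} (hU : NE E U) : ∃ V, U ≤ V ∧ Maximal (NE E) V := by
  refine zorn_le_nonempty₀ {U | NE E U} (fun c hc hch y hy => ?_) U hU
  have hd : DirectedOn (· ≤ ·) c := hch.directedOn
  have h1 : sSup c ≤ closure (((sSup c : Subgroup G) : Set G) ∩ E) :=
    sSup_le fun S hS => (hc hS).2.trans (Subgroup.closure_mono
      (Set.inter_subset_inter_left _ (fun x hx => le_sSup hS hx)))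
  refine ⟨sSup c, ⟨?_, h1⟩, fun z hz => le_sSup hz⟩
  have h2 : LN (sSup c) := fun F hF => by
    obtain ⟨S, hS, hFS⟩ := exists_finset_le_of_directed ⟨y, hy⟩ hd F hF
    exact (hc hS).1.mono ((closure_le _).mpr hFS)
  generalize sSup c = T at h1 h2
  rcases ((T : Set G) ∩ E).eq_empty_or_nonempty with h | ⟨e, he, he'⟩
  · rw [h, Subgroup.closure_empty] at h1
    exact ⟨0, le_bot_iff.mp h1⟩
  have h3 := le_coset hE h1 he he'
  have h4 : T ≤ nz (T ⊓ M) := nz_inf le_normalizer le_normalizer_of_normal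
  have h5 := sol_in hM inf_le_right (h2.mono (V := T ⊓ M) inf_le_left)
  have h6 : Sol T := by
    obtain ⟨d, hd⟩ := h5
    refine ⟨d + 1, le_bot_iff.mp ?_⟩
    rw [der_succ', ← hd]
    exact der_mono ((commutator_mono h3 h3).trans (comm_zpowers_sup_le (h4 he))) d
  have h7 := nilp_in hM inf_le_right h5 fun z hz => by
    obtain ⟨m, hm⟩ := (br_closure (L := T) (fun a ha => br_of_sol h6 ha.1 (by
      obtain ⟨m, hm⟩ := hEL a ha.2
      exact ⟨m, fun y _ => hm y (mem_top y)⟩)) (h1 hz.1)).ble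
    exact ⟨m, fun y hy => hm y hy.1⟩
  obtain ⟨m, hm⟩ := hEL e he'
  exact (nilp_sup_of_engel h7 (h4 he) fun y _ => hm y (mem_top y)).mono h3

theorem nilp_closure_rel [M.Normal] (hM : Mc M) (hE : ∀ e ∈ E, ∀ e' ∈ E, e⁻¹ * e' ∈ M)
    (hEc : ∀ g : G, ∀ e ∈ E, g * e * g⁻¹ ∈ E) (hEL : ∀ e ∈ E, BLE ⊤ e) : Nilp (closure E) := by
  have hbot : NE E (⊥ : Subgroup G) := ⟨⟨0, rfl⟩, bot_le⟩
  rcases E.eq_empty_or_nonempty with rfl | ⟨u, huE⟩
  · rw [Subgroup.closure_empty]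
    exact hbot.1
  obtain ⟨U, hu, hU⟩ := exists_maximal_rel hM hE hEL (hbot.sup hEL huE (nz_bot ⊤ (mem_top u)))
  replace hu : u ∈ U := hu (mem_sup_left (mem_zpowers u))
  refine hU.1.1.mono ((closure_le _).mpr fun v₀ hv₀ => ?_)
  by_contra hne
  obtain ⟨V₀, hV₀, hne', -, huV⟩ := baer_step hEc hEL hU bot_le hu huE hv₀ hne
    (nz_bot ⊤ (mem_top u)) (nz_bot ⊤ (mem_top v₀))
  obtain ⟨c, hc⟩ := hU.1.1
  let jj : Subgroup G → Subgroup G := fun V => closure (((U ⊓ V : Subgroup G) : Set G) ∩ E)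
  have jjU : ∀ V, jj V ≤ U := fun V => (closure_inter_le E _).trans inf_le_left
  have jjV : ∀ V, jj V ≤ V := fun V => (closure_inter_le E _).trans inf_le_right
  have jjE : ∀ V, jj V ≤ closure ((jj V : Set G) ∩ E) := fun V => isE_closure Set.inter_subset_right
  have memjj : ∀ V, ∀ x ∈ U, x ∈ V → x ∈ E → x ∈ jj V := fun V x h1 h2 h3 =>
    subset_closure ⟨⟨h1, h2⟩, h3⟩
  have lejj : ∀ V V', jj V ≤ V' → jj V ≤ jj V' := fun V V' h =>
    (closure_le _).mpr fun x hx => memjj V' x hx.1.1 (h (subset_closure hx)) hx.2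
  have grow : ∀ V, Maximal (NE E) V → V ≠ U →
      (∃ w ∈ U, w ∈ E ∧ w ∉ V ∧ w ∈ nz (jj V)) ∧ (∃ w ∈ V, w ∈ E ∧ w ∉ U ∧ w ∈ nz (jj V)) := by
    intro V hV hVU
    constructor
    · obtain ⟨w, h1, h2, h3, h4⟩ := normalizer_growth hEc hU.1 (jjE V) (jjU V)
        (fun h => hVU (le_antisymm (hU.2 hV.1 (h.trans (jjV V))) (h.trans (jjV V))))
      exact ⟨w, h1, h2, fun h => h3 (memjj V w h1 h h2), h4⟩
    · obtain ⟨w, h1, h2, h3, h4⟩ := normalizer_growth hEc hV.1 (jjE V) (jjV V)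
        (fun h => hVU (le_antisymm (h.trans (jjU V)) (hV.2 hU.1 (h.trans (jjU V)))))
      exact ⟨w, h1, h2, fun h => h3 (memjj V w h h1 h2), h4⟩
  obtain ⟨_, ⟨V, ⟨hV, hVU, huV⟩, rfl⟩, D₀, hD₁, hD₂, hD₃⟩ := envelope_rel hM
    (𝓙 := jj '' {V | Maximal (NE E) V ∧ V ≠ U ∧ u ∈ V}) ⟨_, V₀, ⟨hV₀, hne', huV⟩, rfl⟩ (c := c) (by
      rintro _ ⟨V, -, rfl⟩
      exact le_bot_iff.mp ((lcs_mono (jjU V) c).trans hc.le))
  have huj := memjj V u hu huV huE
  have hle' : ∀ V', Maximal (NE E) V' → V' ≠ U → jj V ≤ jj V' → jj V' ≤ zpowers u ⊔ D₀ :=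
    fun V' h1 h2 h3 => (le_coset hE (jjE V') (h3 huj) huE).trans (sup_le_sup_left
      (hD₃ _ ⟨V', ⟨h1, h2, jjV V' (h3 huj)⟩, rfl⟩ h3) _)
  set D := jj V ⊔ D₀ with hD
  have hle : ∀ V', Maximal (NE E) V' → V' ≠ U → jj V ≤ jj V' → jj V' ≤ D := fun V' h1 h2 h3 =>
    (hle' V' h1 h2 h3).trans (sup_le_sup_right ((zpowers_le (G := G)).mpr huj) _)
  have hDn : nz (jj V) ≤ nz (closure ((D : Set G) ∩ E)) :=
    nz_closure_inter hEc (nz_sup le_rfl hD₂)
  have hDE : NE E (closure ((D : Set G) ∩ E)) := by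
    obtain ⟨m, hm⟩ := hEL u huE
    exact ⟨(nilp_sup_of_engel hD₁ (hD₂ (le_normalizer huj)) fun y _ => hm y (mem_top y)).mono
      ((closure_inter_le E D).trans (sup_le (hle' V hV hVU le_rfl) le_sup_right)),
      isE_closure Set.inter_subset_right⟩
  obtain ⟨v, -, hvE, hvU, hvn⟩ := (grow V hV hVU).2
  obtain ⟨V₁, hV₁le, hV₁⟩ := exists_maximal_rel hM hE hEL (hDE.sup hEL hvE (hDn hvn))
  have hV₁U : V₁ ≠ U := fun h => hvU (h ▸ hV₁le (mem_sup_left (mem_zpowers v)))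
  have hDV₁ : ∀ x ∈ D, x ∈ E → x ∈ V₁ := fun x h1 h2 =>
    hV₁le (mem_sup_right (subset_closure ⟨h1, h2⟩))
  have h1 : jj V ≤ jj V₁ := by
    refine lejj V V₁ ((jjE V).trans ((closure_le _).mpr fun x hx => ?_))
    exact hDV₁ x (hle V hV hVU le_rfl hx.1) hx.2
  obtain ⟨⟨u₁, hu₁U, hu₁E, hu₁V, hu₁n⟩, ⟨v₁, -, hv₁E, hv₁U, hv₁n⟩⟩ := grow V₁ hV₁ hV₁U
  obtain ⟨V₂, hV₂, hV₂U, hle₂, hu₂⟩ :=
    baer_step hEc hEL hU (jjU V₁) hu₁U hu₁E hv₁E hv₁U hu₁n hv₁n
  have h2 : jj V₂ ≤ D := hle V₂ hV₂ hV₂U (h1.trans (lejj V₁ V₂ hle₂))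
  exact hu₁V (hDV₁ u₁ (h2 (memjj V₂ u₁ hu₁U hu₂ hu₁E)) hu₁E)

end

end Pool.Agent.Lib.MP_3f2ebd_al
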