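import Pool.Agent.Lib.MP_3f2ebd_al.Poly

/-! Bounded right Engel elements with a soluble normal closure. -/

set_option autoImplicit false

namespace Pool.Agent.Lib.MP_3f2ebd_al

open Subgroup
open scoped commutatorElement

/-- The right `m`-Engel elements lying in `S`. -/
def RE {G : Type*} [Group G] (S : Subgroup G) (m : ℕ) : Set G :=
  {a | a ∈ S ∧ ∀ x : G, (ad x)^[m] a = 1}

section

variable {G : Type*} [Group G]

lemma re_conj {S : Subgroup G} [hS : S.Normal] {m : ℕ} {a : G} (h : a ∈ RE S m) (g : G) :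
    g * a * g⁻¹ ∈ RE S m := ⟨hS.conj_mem a h.1 g, right_engel_conj h.2 g⟩

lemma engel_pt {S : Subgroup G} [S.Normal] (hS : Sol S) {m : ℕ} {y : G}
    (hy : y ∈ closure (RE S m)) (x : G) : ∃ t, (ad x)^[t] y = 1 := by
  obtain ⟨F, h1, h2, h3⟩ := exists_finite_closure hy
  let B : G → Set G := fun a => {z | ∃ i ≤ m, z = (x ^ i)⁻¹ * a * x ^ i}
  have hB : ∀ a ∈ F, closure (B a) ≤ closure (⋃ a ∈ F, B a) := fun a ha =>
    Subgroup.closure_mono (Set.subset_biUnion_of_mem (u := B) ha)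
  have h4 : ∀ z ∈ ⋃ a ∈ F, B a, z ∈ RE S m := fun z hz => by
    obtain ⟨a, ha, i, -, rfl⟩ := Set.mem_iUnion₂.mp hz
    simpa using re_conj (h1 ha) (x ^ i)⁻¹
  have h5 : (⋃ a ∈ F, B a).Finite := h2.biUnion fun a _ =>
    ((Set.finite_Iic m).image fun i => (x ^ i)⁻¹ * a * x ^ i).subset (by
      rintro _ ⟨i, hi, rfl⟩
      exact ⟨i, hi, rfl⟩)
  have h6 : ∀ g ∈ zpowers x, ∀ z ∈ closure (⋃ a ∈ F, B a), g * z * g⁻¹ ∈ closure (⋃ a ∈ F, B a) :=
    fun g hg => conj_closure fun z hz => by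
      obtain ⟨a, ha, hz⟩ := Set.mem_iUnion₂.mp hz
      exact hB a ha (conj_mem_of_nz (zpowers_le_nz (nz_fin ((h1 ha).2 x)) hg) (subset_closure hz))
  obtain ⟨c, hc⟩ := (br_join (L := S) h5 fun z hz => by
    have := br_of_sol hS (inv_mem (h4 z hz).1) ⟨m + 2, fun y _ => heineken (h4 z hz).2 y⟩
    rwa [Br, zpowers_inv] at this).1
  have h7 := nilp_of_le_zm (lemmaT rfl (mem_nz_of (h6 x (mem_zpowers x))
    (h6 x⁻¹ (inv_mem (mem_zpowers x)))) (fun z hz => (h4 z hz).2 x) hc)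
  refine ⟨_, mem_bot.mp (h7.le (iterate_ad_mem_lcs (mem_sup_left (mem_zpowers x))
    (mem_sup_right ((closure_le _).mpr (fun a ha => hB a ha (subset_closure
      ⟨0, Nat.zero_le _, by simp⟩)) h3)) _))⟩

lemma Sol.pi {S : Subgroup G} (hS : Sol S) (I : Type*) :
    Sol (Subgroup.pi Set.univ fun _ : I => S) := by
  obtain ⟨d, hd⟩ := hS
  refine ⟨d, le_bot_iff.mp fun y hy => funext fun i => mem_bot.mp (hd.le ?_)⟩
  have := mem_map_of_mem (Pi.evalMonoidHom (fun _ : I => G) i) hy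
  rw [map_der] at this
  refine der_mono ?_ d this
  rintro _ ⟨z, hz, rfl⟩
  exact hz i trivial

lemma engel_comm {S : Subgroup G} [hN : S.Normal] (hS : Sol S) (m : ℕ) :
    ∃ t, ∀ a ∈ RE S m, ∀ b ∈ RE S m, ∀ x, (ad x)^[t] ⁅a, b⁆ = 1 := by
  let I := G × RE S m × RE S m
  have : (Subgroup.pi Set.univ fun _ : I => S).Normal :=
    ⟨fun y hy g i _ => hN.conj_mem _ (hy i trivial) _⟩
  have h1 : ∀ c : I → RE S m, (fun i => (c i : G)) ∈
      closure (RE (Subgroup.pi Set.univ fun _ : I => S) m) := fun c =>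
    subset_closure ⟨fun i _ => (c i).2.1, fun x => funext fun i =>
      (map_ad (Pi.evalMonoidHom (fun _ : I => G) i) x _ m).trans ((c i).2.2 _)⟩
  obtain ⟨t, ht⟩ := engel_pt (hS.pi I) (commutator_le_self _ (commutator_mem_commutator
    (h1 fun i => i.2.1) (h1 fun i => i.2.2))) fun i => i.1
  exact ⟨t, fun a ha b hb x => (map_ad (Pi.evalMonoidHom (fun _ : I => G)
    (x, ⟨a, ha⟩, ⟨b, hb⟩)) _ _ t).symm.trans (congrFun ht _)⟩

lemma comm_closure_le {A : Set G} {D : Subgroup G} [D.Normal] (h : ∀ a ∈ A, ∀ b ∈ A, ⁅a, b⁆ ∈ D) :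
    ⁅closure A, closure A⁆ ≤ D := by
  refine comm_le_of_le_cmod ((closure_le _).mpr fun a ha =>
    ⟨le_normalizer_of_normal (mem_top a), fun b hb => comm_mem_comm ?_⟩)
  exact ((closure_le (cmod D {a})).mpr (fun b hb => ⟨le_normalizer_of_normal (mem_top b), by
    rintro _ rfl
    exact h b hb _ ha⟩) hb).2 a rfl

lemma normal_der (N : Subgroup G) [N.Normal] (i : ℕ) : (der N i).Normal :=
  normalizer_eq_top_iff.mp (top_le_iff.mp (nz_der le_normalizer_of_normal i))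

lemma der_gen {N : Subgroup G} [N.Normal] (hN : Sol N) {m : ℕ} (h : N ≤ closure (RE N m)) (i : ℕ) :
    ∃ t, der N i ≤ closure (RE (der N i) t) := by
  induction i with
  | zero => exact ⟨m, h⟩
  | succ i ih =>
    obtain ⟨t, ht⟩ := ih
    have := normal_der N i
    have := normal_der N (i + 1)
    obtain ⟨s, hs⟩ := engel_comm (hN.mono (der_le N i)) t
    have : (closure (RE (der N (i + 1)) s)).Normal := normalizer_eq_top_iff.mp
      (top_le_iff.mp (nz_closure fun g _ a ha => re_conj ha g))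
    exact ⟨s, (commutator_mono ht ht).trans (comm_closure_le fun a ha b hb =>
      subset_closure ⟨commutator_mem_commutator ha.1 hb.1, hs a ha b hb⟩)⟩

/-- A soluble normal subgroup generated by right `m`-Engel elements. -/
lemma sn_of_sol {N : Subgroup G} [N.Normal] (hN : Sol N) {m : ℕ} (h : N ≤ closure (RE N m)) :
    ∃ n, ∀ x : G, SN (zpowers x) n (zpowers x ⊔ N) := by
  have key : ∀ i, ∃ n, ∀ x : G, SN (zpowers x ⊔ der N i) n (zpowers x ⊔ N) := fun i => by
    induction i with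
    | zero => exact ⟨0, fun _ => rfl⟩
    | succ i ih =>
      obtain ⟨n, hn⟩ := ih
      obtain ⟨t, ht⟩ := der_gen hN h i
      have := normal_der N i
      have := normal_der N (i + 1)
      have h1 : der N (i + 1) ≤ der N i := commutator_le_self _
      refine ⟨t + n, fun x => SN.trans ?_ (hn x)⟩
      refine (sn_zm le_sup_left (h1.trans le_sup_right) le_normalizer_of_normal t).restrict
        (sup_le_sup_left h1 _) (sup_le_sup_left (ht.trans ((closure_le _).mpr fun a ha => ?_)) _)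
      refine mem_zm_of_iterate (le_normalizer_of_normal (mem_top x))
        (le_normalizer_of_normal (mem_top x)) le_normalizer_of_normal h1 le_rfl t a ha.1 ?_
      rw [ha.2]
      exact one_mem _
  obtain ⟨d, hd⟩ := hN
  simpa only [hd, sup_bot_eq] using key d

theorem Poly.main {k : ℕ} {N : Subgroup G} [N.Normal] (hN : Poly k N) {a : G} (ha : a ∈ N) {m : ℕ}
    (h : ∀ x : G, (ad x)^[m] a = 1) :
    ∃ n, ∀ x : G, SN (zpowers x) n (zpowers x ⊔ normalClosure ({a} : Set G)) := by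
  have h0 : normalClosure ({a} : Set G) ≤ N := normalClosure_le_normal (by simpa using ha)
  have h1 : ∀ b ∈ Group.conjugatesOfSet ({a} : Set G), ∀ x, (ad x)^[m] b = 1 := fun b hb => by
    obtain ⟨_, rfl, hc⟩ := Group.mem_conjugatesOfSet_iff.mp hb
    obtain ⟨t, rfl⟩ := isConj_iff.mp hc
    exact right_engel_conj h t
  refine sn_of_sol (Poly.sol k _ (hN.mono h0) (ln_closure (L := N) fun b hb => ?_)) (m := m)
    (Subgroup.closure_mono fun b hb => ⟨subset_closure hb, h1 b hb⟩)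
  have := Poly.sn ⟨m + 2, fun y _ => heineken (h1 b hb) y⟩ k N hN
    (le_normalizer_of_normal (mem_top _))
  rwa [zpowers_inv, sup_eq_right.mpr ((zpowers_le (G := G)).mpr (h0 (subset_closure hb)))] at this

lemma SN.chain {H : Subgroup G} : ∀ {n : ℕ} {L : Subgroup G}, SN H n L →
    ∃ C : ℕ → Subgroup G, C 0 = H ∧ C n = L ∧ ∀ i < n, C i ≤ C (i + 1) ∧ C (i + 1) ≤ nz (C i)
  | 0, _, h => ⟨fun _ => H, rfl, Eq.symm h, fun _ hi => absurd hi (Nat.not_lt_zero _)⟩
  | n + 1, L, ⟨K, h, h1, h2⟩ => by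
    obtain ⟨C, a1, a2, a3⟩ := h.chain
    refine ⟨fun i => if i ≤ n then C i else L, by simpa using a1, by simp, fun i hi => ?_⟩
    rcases Nat.lt_succ_iff_lt_or_eq.mp hi with hi | rfl
    · simpa [hi.le, Nat.succ_le_of_lt hi] using a3 i hi
    · simpa [a2] using ⟨h1, h2⟩

lemma mcMod_of_quot {K M : Subgroup G} [(K.subgroupOf M).Normal]
    (h : ∀ X : Set (M ⧸ K.subgroupOf M), ∃ X₀ : Set (M ⧸ K.subgroupOf M), X₀.Finite ∧ X₀ ⊆ X ∧
      centralizer X = centralizer X₀) : McMod K M := by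
  intro X hX
  let φ := QuotientGroup.mk' (K.subgroupOf M)
  have key : ∀ z x : M, ⁅(z : G), (x : G)⁆ ∈ K ↔ φ x * φ z = φ z * φ x := fun z x => by
    rw [eq_comm, ← commutatorElement_eq_one_iff_mul_comm, ← map_commutatorElement]
    exact (QuotientGroup.eq_one_iff (N := K.subgroupOf M) ⁅z, x⁆).symm
  obtain ⟨Y, a1, a2, a3⟩ := h (φ '' (M.subtype ⁻¹' X))
  obtain ⟨X₀, b1, b2, b3⟩ := finite_pre a2 a1
  refine ⟨M.subtype '' X₀, by rintro _ ⟨x, hx, rfl⟩; exact b1 hx, b2.image _,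
    fun z hz hx x hx' => (key ⟨z, hz⟩ ⟨x, hX hx'⟩).mpr (a3.ge (fun y hy => ?_) _ ⟨_, hx', rfl⟩)⟩
  obtain ⟨w, hw, rfl⟩ := b3 hy
  exact (key ⟨z, hz⟩ w).mp (hx _ ⟨w, hw, rfl⟩)

end

end Pool.Agent.Lib.MP_3f2ebd_al
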