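import Pool.Agent.Lib.MP_3f2ebd_al.Baer

/-! Subnormal subgroups and the theorems of Baer and Gruenberg on bounded left Engel elements. -/

set_option autoImplicit false

namespace Pool.Agent.Lib.MP_3f2ebd_al

open Subgroup
open scoped commutatorElement

variable {G : Type*} [Group G]

/-- `H` is subnormal in `L` of defect at most `n`. -/
def SN (H : Subgroup G) : ℕ → Subgroup G → Prop
  | 0, L => L = H
  | n + 1, L => ∃ K, SN H n K ∧ K ≤ L ∧ L ≤ nz K

lemma SN.le {H : Subgroup G} : ∀ {n : ℕ} {L : Subgroup G}, SN H n L → H ≤ L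
  | 0, _, h => le_of_eq (Eq.symm h)
  | _ + 1, _, ⟨_, h, h1, _⟩ => h.le.trans h1

lemma SN.mono {H L : Subgroup G} {n n' : ℕ} (h : SN H n L) (hn : n ≤ n') : SN H n' L := by
  induction hn with
  | refl => exact h
  | step _ ih => exact ⟨L, ih, le_rfl, le_normalizer⟩

lemma SN.trans {H K : Subgroup G} {n : ℕ} (h : SN H n K) :
    ∀ {m : ℕ} {L : Subgroup G}, SN K m L → SN H (n + m) L
  | 0, _, h' => (show _ = K from h') ▸ h
  | _ + 1, _, ⟨K', h', h1, h2⟩ => ⟨K', h.trans h', h1, h2⟩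

lemma sn_one {H L : Subgroup G} (h1 : H ≤ L) (h2 : L ≤ nz H) : SN H 1 L := ⟨H, rfl, h1, h2⟩

lemma SN.inf {H : Subgroup G} (P : Subgroup G) :
    ∀ {n : ℕ} {L : Subgroup G}, SN H n L → SN (H ⊓ P) n (L ⊓ P)
  | 0, _, h => congrArg (· ⊓ P) h
  | _ + 1, _, ⟨K, h, h1, h2⟩ => ⟨K ⊓ P, h.inf P, inf_le_inf_right _ h1,
      nz_inf (inf_le_left.trans h2) (inf_le_right.trans le_normalizer)⟩

lemma SN.restrict {H L P : Subgroup G} {n : ℕ} (h : SN H n L) (h1 : H ≤ P) (h2 : P ≤ L) :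
    SN H n P := by
  have := h.inf P
  rwa [inf_eq_left.mpr h1, inf_eq_right.mpr h2] at this

lemma SN.sup {H Y : Subgroup G} :
    ∀ {n : ℕ} {L : Subgroup G}, SN H n L → L ≤ nz Y → SN (H ⊔ Y) n (L ⊔ Y)
  | 0, _, h, _ => congrArg (· ⊔ Y) h
  | _ + 1, _, ⟨K, h, h1, h2⟩, hY => ⟨K ⊔ Y, h.sup (h1.trans hY), sup_le_sup_right h1 _,
      sup_le (nz_sup h2 hY) (le_sup_right.trans le_normalizer)⟩

lemma SN.map {G' : Type*} [Group G'] (f : G →* G') {H : Subgroup G} :
    ∀ {n : ℕ} {L : Subgroup G}, SN H n L → SN (H.map f) n (L.map f)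
  | 0, _, h => congrArg (Subgroup.map f) h
  | _ + 1, _, ⟨K, h, h1, h2⟩ => ⟨K.map f, h.map f, map_mono h1,
      (map_mono h2).trans (le_normalizer_map f)⟩

lemma SN.comap {G' : Type*} [Group G'] (f : G' →* G) {H : Subgroup G} :
    ∀ {n : ℕ} {L : Subgroup G}, SN H n L → SN (H.comap f) n (L.comap f)
  | 0, _, h => congrArg (Subgroup.comap f) h
  | _ + 1, _, ⟨K, h, h1, h2⟩ => ⟨K.comap f, h.comap f, comap_mono h1,
      (comap_mono h2).trans (le_normalizer_comap f)⟩

lemma sn_zm {T L K : Subgroup G} (hT : T ≤ L) (h0 : K ≤ L) (h : L ≤ nz K) (j : ℕ) :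
    SN (T ⊔ K) j (T ⊔ zm L K j) := by
  induction j with
  | zero => rfl
  | succ j ih => exact ⟨_, ih, sup_le_sup_left (zm_le_succ h0 h j) _, sup_zm_nz' hT h0 h j⟩

lemma sn_of_nilp {T L : Subgroup G} (hL : Nilp L) (hT : T ≤ L) : ∃ n, SN T n L := by
  obtain ⟨c, hc⟩ := hL
  have := sn_zm hT bot_le (nz_bot L) c
  rw [sup_bot_eq] at this
  exact ⟨c, this.restrict hT ((le_zm_of_nilp hc).trans le_sup_right)⟩

lemma SN.ad_mem {H : Subgroup G} {e : G} (he : e ∈ H) :
    ∀ {n : ℕ} {L : Subgroup G}, SN H n L → ∀ y ∈ L, (ad e)^[n] y ∈ H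
  | 0, _, h, y, hy => (show _ = H from h) ▸ hy
  | n + 1, _, ⟨K, h, _, h2⟩, y, hy => by
    rw [Function.iterate_succ_apply]
    refine h.ad_mem he _ ?_
    rw [show ad e y = y⁻¹ * e⁻¹ * y * e by simp only [ad]; group]
    exact mul_mem (conj_mem_of_nz' (h2 hy) (inv_mem (h.le he))) (h.le he)

/-- Iterated commutators of subgroups. -/
def cit (Y H : Subgroup G) : ℕ → Subgroup G
  | 0 => Y
  | i + 1 => ⁅cit Y H i, H⁆

lemma cit_mono {Y Y' H : Subgroup G} (h : Y ≤ Y') (i : ℕ) : cit Y H i ≤ cit Y' H i := by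
  induction i with
  | zero => exact h
  | succ i ih => exact commutator_mono ih le_rfl

lemma cit_add (Y H : Subgroup G) (i j : ℕ) : cit Y H (i + j) = cit (cit Y H i) H j := by
  induction j with
  | zero => rfl
  | succ j ih => exact congrArg (⁅·, H⁆) ih

lemma SN.cit_le {H : Subgroup G} : ∀ {n : ℕ} {L : Subgroup G}, SN H n L → cit L H n ≤ H
  | 0, _, h => le_of_eq h
  | n + 1, L, ⟨K, h, _, h2⟩ => by
    rw [add_comm, cit_add]
    refine (cit_mono (show ⁅L, H⁆ ≤ K from ?_) n).trans h.cit_le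
    rw [commutator_comm]
    exact (commutator_mono h.le le_rfl).trans (comm_le_left_of_nz h2)

lemma SN.cit_bot {H L : Subgroup G} {n : ℕ} (h : SN H n L) (hH : Nilp H) :
    ∃ m, cit L H m = ⊥ := by
  obtain ⟨c, hc⟩ := hH
  have h1 : ∀ i, cit H H i = lcs H i := fun i => by
    induction i with
    | zero => rfl
    | succ i ih => exact congrArg (⁅·, H⁆) ih
  refine ⟨n + c, le_bot_iff.mp ?_⟩
  rw [cit_add, ← hc, ← h1]
  exact cit_mono h.cit_le c

lemma lcs_sup_le {H Y : Subgroup G} (h : H ≤ nz Y) (i : ℕ) : lcs (H ⊔ Y) i ≤ lcs H i ⊔ Y := by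
  induction i with
  | zero => exact le_rfl
  | succ i ih =>
    have h1 : H ≤ nz (lcs H (i + 1) ⊔ Y) := nz_sup (nz_lcs le_normalizer _) h
    have h2 : Y ≤ nz (lcs H (i + 1) ⊔ Y) := le_sup_right.trans le_normalizer
    have h3 : ⁅Y, H ⊔ Y⁆ ≤ Y := comm_le_left_of_nz (sup_le h le_normalizer)
    refine (commutator_mono ih le_rfl).trans (comm_sup_le ((lcs_le H i).trans h1) h2 ?_
      (h3.trans le_sup_right))
    rw [commutator_comm]
    refine comm_sup_le h1 h2 ?_ ((commutator_mono le_rfl ((lcs_le H i).trans le_sup_left)).trans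
      (h3.trans le_sup_right))
    rw [commutator_comm]
    exact le_sup_left

lemma nilp_sup {H Y L : Subgroup G} {n : ℕ} (hH : Nilp H) (hY : Nilp Y) (h : H ≤ nz Y)
    (hn : SN H n L) (hYL : Y ≤ L) : Nilp (H ⊔ Y) := by
  obtain ⟨m, hm⟩ := hn.cit_bot hH
  obtain ⟨c, hc⟩ := hH
  obtain ⟨c', hc'⟩ := hY
  have nY : H ⊔ Y ≤ nz Y := sup_le h le_normalizer
  have n1 : H ⊔ Y ≤ nz (lcs Y 1) := nz_lcs nY 1
  have h1 : ∀ i, cit Y H i ≤ Y := fun i => by
    induction i with
    | zero => exact le_rfl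
    | succ i ih => exact (commutator_mono ih le_rfl).trans (comm_le_left_of_nz h)
  have h2 : ∀ j i, i + j = m → cit Y H i ≤ zm (H ⊔ Y) (lcs Y 1) j := by
    intro j
    induction j with
    | zero =>
      intro i hi
      rw [add_zero] at hi
      exact (cit_mono hYL i).trans ((hi ▸ hm : cit L H i = ⊥).le.trans bot_le)
    | succ j ih =>
      intro i hi
      have hn := self_nz_zm n1 j
      refine le_zm_succ n1 ((h1 i).trans le_sup_right) ?_
      rw [commutator_comm]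
      refine comm_sup_le (le_sup_left.trans hn) (le_sup_right.trans hn) ?_ ?_
      · rw [commutator_comm]
        exact ih (i + 1) (by omega)
      · exact (commutator_mono le_rfl (h1 i)).trans
          (zm_mono ((lcs_le Y 1).trans le_sup_right) n1 (Nat.zero_le j))
  have h3 := hall le_sup_right nY (h2 m 0 (zero_add m)) hc'
  have h4 : H ⊔ Y ≤ zm (H ⊔ Y) Y c :=
    le_zm_of_lcs nY ((lcs_sup_le h c).trans (by rw [hc, bot_sup_eq]))
  exact ⟨_, nilp_of_le_zm (h4.trans (zm_trans (nz_bot _) h3 c))⟩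

lemma sn_sup {H Y : Subgroup G} (hY : H ≤ nz Y) {r : ℕ} (t : ℕ) : ∀ L : Subgroup G, SN Y t L →
    H ≤ nz L → SN H r (H ⊔ L) → ∃ n, SN (H ⊔ Y) n (H ⊔ L) := by
  induction t with
  | zero =>
    intro L h _ _
    exact ⟨0, congrArg (H ⊔ ·) h⟩
  | succ t ih =>
    rintro L ⟨K, h1, h2, h3⟩ hL hr
    set Y₁ := closure {x | ∃ l ∈ L, ∃ y ∈ Y, x = l * y * l⁻¹}
    have a1 : Y ≤ Y₁ := fun y hy => subset_closure ⟨1, one_mem _, y, hy, by group⟩
    have a2 : Y₁ ≤ K := (closure_le _).mpr (by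
      rintro _ ⟨l, hl, y, hy, rfl⟩
      exact conj_mem_of_nz (h3 hl) (h1.le hy))
    have a3 : H ⊔ L ≤ nz Y₁ := by
      refine sup_le (nz_closure ?_) (nz_closure ?_)
      · rintro h hh _ ⟨l, hl, y, hy, rfl⟩
        exact ⟨_, conj_mem_of_nz (hL hh) hl, _, conj_mem_of_nz (hY hh) hy, by group⟩
      · rintro h hh _ ⟨l, hl, y, hy, rfl⟩
        exact ⟨_, mul_mem hh hl, y, hy, by group⟩
    have a4 : Y₁ ≤ L := a2.trans h2
    obtain ⟨n, hn⟩ := ih Y₁ (h1.restrict a1 a2) (le_sup_left.trans a3)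
      (hr.restrict le_sup_left (sup_le_sup_left a4 _))
    have a5 := hr.sup a3
    rw [sup_assoc, sup_eq_left.mpr a4] at a5
    exact ⟨_, hn.trans a5⟩

lemma exists_finite_closure {A : Set G} {z : G} (hz : z ∈ closure A) :
    ∃ S ⊆ A, S.Finite ∧ z ∈ closure S := by
  induction hz using closure_induction with
  | mem x hx => exact ⟨{x}, by simpa using hx, Set.finite_singleton x, subset_closure rfl⟩
  | one => exact ⟨∅, by simp, Set.finite_empty, one_mem _⟩
  | mul x y _ _ hx hy =>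
    obtain ⟨S, h1, h2, h3⟩ := hx
    obtain ⟨S', h1', h2', h3'⟩ := hy
    exact ⟨S ∪ S', Set.union_subset h1 h1', h2.union h2',
      mul_mem (closure_mono Set.subset_union_left h3) (closure_mono Set.subset_union_right h3')⟩
  | inv x _ hx =>
    obtain ⟨S, h1, h2, h3⟩ := hx
    exact ⟨S, h1, h2, inv_mem h3⟩

lemma mem_nz_of {D : Subgroup G} {g : G} (h1 : ∀ x ∈ D, g * x * g⁻¹ ∈ D)
    (h2 : ∀ x ∈ D, g⁻¹ * x * g⁻¹⁻¹ ∈ D) : g ∈ nz D :=
  mem_normalizer_iff.mpr fun x => ⟨h1 x, fun h => by simpa [mul_assoc] using h2 _ h⟩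

lemma conj_closure {S : Set G} {D : Subgroup G} {g : G} (h : ∀ s ∈ S, g * s * g⁻¹ ∈ D) :
    ∀ x ∈ closure S, g * x * g⁻¹ ∈ D := fun _ hx =>
  ((closure_le (D.comap (MulAut.conj g).toMonoidHom)).mpr h) hx

lemma ncl_finite {F : Set G} (hF : F.Finite) (y : G) (m : ℕ) : ∀ z ∈ ncl (closure F) y,
    cit (zpowers z) (closure F) m = ⊥ → ∃ S ⊆ {x | ∃ t ∈ closure F, x = t * y * t⁻¹},
      S.Finite ∧ ncl (closure F) z ≤ closure S := by
  induction m with
  | zero =>
    intro z _ h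
    refine ⟨∅, by simp, Set.finite_empty, (closure_le _).mpr ?_⟩
    rintro _ ⟨t, -, rfl⟩
    rw [show z = 1 from mem_bot.mp (h.le (mem_zpowers z))]
    simp
  | succ m ih =>
    intro z hz h
    have hg : ∀ g ∈ F ∪ F⁻¹, g ∈ closure F := by
      rintro g (hg | hg)
      · exact subset_closure hg
      · exact inv_mem_iff.mp (subset_closure hg)
    have h1 : ∀ g ∈ F ∪ F⁻¹, ∃ S ⊆ {x | ∃ t ∈ closure F, x = t * y * t⁻¹},
        S.Finite ∧ ncl (closure F) ⁅g, z⁆ ≤ closure S := fun g hg' => by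
      refine ih _ (mul_mem (conj_mem_of_nz (nz_ncl _ y (hg g hg')) hz) (inv_mem hz)) ?_
      rw [add_comm, cit_add] at h
      refine le_bot_iff.mp ((cit_mono ((zpowers_le (G := G)).mpr ?_) m).trans h.le)
      exact comm_mem_comm (commutator_mem_commutator (mem_zpowers z) (hg g hg'))
    choose! S a1 a2 a3 using h1
    obtain ⟨S₀, b1, b2, b3⟩ := exists_finite_closure hz
    set D := closure ({z} ∪ ⋃ g ∈ F ∪ F⁻¹, (ncl (closure F) ⁅g, z⁆ : Set G))
    have c1 : ∀ g ∈ F ∪ F⁻¹, ncl (closure F) ⁅g, z⁆ ≤ D := fun g hg' x hx =>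
      subset_closure (Or.inr (Set.mem_biUnion hg' hx))
    have c2 : z ∈ D := subset_closure (Or.inl rfl)
    have c3 : ∀ g ∈ F ∪ F⁻¹, ∀ x ∈ D, g * x * g⁻¹ ∈ D := fun g hg' => conj_closure (by
      rintro s (rfl | hs)
      · rw [show g * s * g⁻¹ = ⁅g, s⁆ * s by simp only [commutatorElement_def]; group]
        exact mul_mem (c1 g hg' (mem_ncl _ _)) c2
      · obtain ⟨g', hg'', hs⟩ := Set.mem_iUnion₂.mp hs
        exact c1 g' hg'' (conj_mem_of_nz (nz_ncl _ _ (hg g hg')) hs))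
    have c4 : closure F ≤ nz D := (closure_le _).mpr fun g hg' =>
      mem_nz_of (c3 g (Or.inl hg')) (c3 g⁻¹ (Or.inr (by simpa using hg')))
    refine ⟨S₀ ∪ ⋃ g ∈ F ∪ F⁻¹, S g, Set.union_subset b1 (Set.iUnion₂_subset a1),
      b2.union ((hF.union hF.inv).biUnion a2), le_trans (b := D) ((closure_le _).mpr ?_)
        ((closure_le _).mpr ?_)⟩
    · rintro _ ⟨t, ht, rfl⟩
      exact conj_mem_of_nz (c4 ht) c2
    · rintro s (rfl | hs)
      · exact closure_mono Set.subset_union_left b3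
      · obtain ⟨g, hg', hs⟩ := Set.mem_iUnion₂.mp hs
        exact closure_mono ((Set.subset_biUnion_of_mem hg').trans Set.subset_union_right)
          (a3 g hg' hs)

lemma nilp_zpowers (e : G) : Nilp (zpowers e) :=
  ⟨1, (Subgroup.commutator_self_eq_bot_iff (H := zpowers e)).mpr inferInstance⟩

lemma SN.conj {y t : G} {n : ℕ} {L : Subgroup G} (h : SN (zpowers y) n L) (ht : t ∈ nz L) :
    SN (zpowers (t * y * t⁻¹)) n L := by
  have := h.map (MulAut.conj t).toMonoidHom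
  rwa [MonoidHom.map_zpowers, show L.map (MulAut.conj t).toMonoidHom = L from
    mem_normalizer_iff_map_conj_eq.mp ht] at this

/-- Baer's theorem on joins of subnormal cyclic subgroups. -/
lemma baer_join (s : ℕ) : ∀ (L : Subgroup G) (F : Set G), F.Finite →
    (∀ f ∈ F, SN (zpowers f) s L) → Nilp (closure F) ∧ ∃ n, SN (closure F) n L := by
  have h0 : ∀ L : Subgroup G, Nilp (closure (∅ : Set G)) ∧ ∃ n, SN (closure (∅ : Set G)) n L :=
    fun L => by
      rw [Subgroup.closure_empty]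
      exact ⟨⟨0, rfl⟩, 1, sn_one bot_le (nz_bot L)⟩
  induction s with
  | zero =>
    intro L F _ h
    rcases F.eq_empty_or_nonempty with rfl | ⟨f, hf⟩
    · exact h0 L
    have h1 : Nilp L := (show L = _ from h f hf) ▸ nilp_zpowers f
    have h2 : closure F ≤ L := (closure_le _).mpr fun g hg => (h g hg).le (mem_zpowers g)
    exact ⟨h1.mono h2, sn_of_nilp h1 h2⟩
  | succ s ih =>
    intro L F hF
    induction F, hF using Set.Finite.induction_on with
    | empty => exact fun _ => h0 L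
    | @insert y F _ hF ih' =>
      intro h
      obtain ⟨a1, r, a2⟩ := ih' fun f hf => h f (Or.inr hf)
      have hy := h y (Or.inl rfl)
      have hyL : y ∈ L := hy.le (mem_zpowers y)
      obtain ⟨K, b1, b2, b3⟩ := hy
      have b4 : SN (zpowers y) s (ncl L y) :=
        b1.restrict ((zpowers_le (G := G)).mpr (mem_ncl L y)) ((closure_le _).mpr (by
          rintro _ ⟨t, ht, rfl⟩
          exact conj_mem_of_nz (b3 ht) (b1.le (mem_zpowers y))))
      obtain ⟨m, hm⟩ := a2.cit_bot a1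
      obtain ⟨S, c1, c2, c3⟩ := ncl_finite hF y m y (mem_ncl _ y) (le_bot_iff.mp
        ((cit_mono ((zpowers_le (G := G)).mpr hyL) m).trans hm.le))
      have c4 : closure S = ncl (closure F) y := le_antisymm (closure_mono c1) c3
      obtain ⟨d1, n, d2⟩ := ih (ncl L y) S c2 fun f hf => by
        obtain ⟨t, ht, rfl⟩ := c1 hf
        exact b4.conj (nz_ncl L y (a2.le ht))
      rw [c4] at d1 d2
      have d3 : SN (ncl (closure F) y) (n + 1) L := ⟨_, d2, ncl_le hyL, nz_ncl L y⟩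
      have d4 : closure (insert y F) = closure F ⊔ ncl (closure F) y := by
        refine le_antisymm ((closure_le _).mpr ?_) (sup_le (closure_mono (Set.subset_insert _ _))
          ((closure_le _).mpr ?_))
        · rintro x (rfl | hx)
          · exact mem_sup_right (mem_ncl _ _)
          · exact mem_sup_left (subset_closure hx)
        · rintro _ ⟨t, ht, rfl⟩
          have ht' := closure_mono (Set.subset_insert y F) ht
          exact mul_mem (mul_mem ht' (subset_closure (Or.inl rfl))) (inv_mem ht')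
      rw [d4]
      have d5 := sn_sup (nz_ncl (closure F) y) _ L d3 (a2.le.trans le_normalizer)
        (r := r) (by rwa [sup_eq_right.mpr a2.le])
      rw [sup_eq_right.mpr a2.le] at d5
      exact ⟨nilp_sup a1 d1 (nz_ncl _ y) a2 d3.le, d5⟩

/-- Elements that generate a subnormal subgroup. -/
def Br (L : Subgroup G) (z : G) : Prop := ∃ n, SN (zpowers z) n L

lemma br_join {L : Subgroup G} {F : Set G} (hF : F.Finite) (h : ∀ f ∈ F, Br L f) :
    Nilp (closure F) ∧ ∃ n, SN (closure F) n L := by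
  choose! n hn using h
  obtain ⟨s, hs⟩ := (hF.image n).bddAbove
  exact baer_join s L F hF fun f hf => (hn f hf).mono (hs ⟨f, hf, rfl⟩)

lemma br_closure {L : Subgroup G} {A : Set G} (h : ∀ a ∈ A, Br L a) {z : G} (hz : z ∈ closure A) :
    Br L z := by
  obtain ⟨S, h1, h2, h3⟩ := exists_finite_closure hz
  obtain ⟨h4, n, h5⟩ := br_join h2 fun f hf => h f (h1 hf)
  obtain ⟨m, hm⟩ := sn_of_nilp h4 ((zpowers_le (G := G)).mpr h3)
  exact ⟨_, hm.trans h5⟩

lemma ln_closure {L : Subgroup G} {A : Set G} (h : ∀ a ∈ A, Br L a) : LN (closure A) :=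
  fun F hF => (br_join F.finite_toSet fun _ hf => br_closure h (hF hf)).1

lemma Br.ble {L : Subgroup G} {z : G} (h : Br L z) : BLE L z := by
  obtain ⟨n, hn⟩ := h
  refine ⟨n + 1, fun y hy => ?_⟩
  obtain ⟨j, hj⟩ := mem_zpowers_iff.mp (hn.ad_mem (mem_zpowers z) y hy)
  rw [Function.iterate_succ_apply', ← hj, ad]
  group

lemma sn_of_iterate {N K : Subgroup G} {x : G} (hx : x ∈ nz N) (hxK : x ∈ nz K)
    (hNK : N ≤ nz K) (hK : K ≤ N) (hNN : ⁅N, N⁆ ≤ K) {m : ℕ} (h : ∀ y ∈ N, (ad x)^[m] y ∈ K) :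
    SN (zpowers x ⊔ K) m (zpowers x ⊔ N) :=
  (sn_zm le_sup_left (hK.trans le_sup_right) (sup_le (zpowers_le_nz hxK) hNK) m).restrict
    (sup_le_sup_left hK _) (sup_le_sup_left
      (fun y hy => mem_zm_of_iterate hx hxK hNK hK hNN m y hy (h y hy)) _)

/-- Gruenberg's theorem on bounded left Engel elements of soluble groups. -/
lemma br_of_sol {S : Subgroup G} (hS : Sol S) {e : G} (he : e ∈ S) (h : BLE S e) : Br S e := by
  obtain ⟨m, hm⟩ := h
  obtain ⟨d, hd⟩ := hS
  have key : ∀ i, ∃ n, SN (zpowers e ⊔ der S i) n (zpowers e ⊔ S) := fun i => by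
    induction i with
    | zero => exact ⟨0, rfl⟩
    | succ i ih =>
      obtain ⟨n, hn⟩ := ih
      refine ⟨_, (sn_of_iterate (m := m) (nz_der le_normalizer i he) (nz_der le_normalizer (i + 1) he)
        ((der_le S i).trans (nz_der le_normalizer (i + 1))) (commutator_le_self _) le_rfl
        fun y hy => ?_).trans hn⟩
      rw [hm y (der_le S i hy)]
      exact one_mem _
  have := key d
  rwa [hd, sup_bot_eq, sup_eq_right.mpr ((zpowers_le (G := G)).mpr he)] at this

end Pool.Agent.Lib.MP_3f2ebd_al
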